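import Mathlib

set_option autoImplicit false

namespace Pool.Agent.Helper6.SymW

open Equiv Finset MvPolynomial

/-- the exponent of the monomial of the permutation `σ` -/
noncomputable def pm {d : ℕ} (σ : Perm (Fin d)) : Fin d × Fin d →₀ ℕ :=
  ∑ i, Finsupp.single (σ i, i) 1

theorem pm_apply {d : ℕ} (σ : Perm (Fin d)) (a b : Fin d) :
    pm σ (a, b) = if a = σ b then 1 else 0 := by
  unfold pm
  rw [Finsupp.finsetSum_apply]
  simp only [Finsupp.single_apply, Prod.mk.injEq]
  rw [Finset.sum_eq_single b]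
  · simp [eq_comm]
  · intro c _ hc
    rw [if_neg]
    rintro ⟨_, h⟩
    exact hc h
  · intro h
    exact absurd (mem_univ _) h

theorem pm_injective {d : ℕ} : Function.Injective (pm (d := d)) := by
  intro σ τ h
  ext b
  have h1 := congrArg (fun f => f (σ b, b)) h
  simp only [pm_apply, if_true] at h1
  by_contra hne
  rw [if_neg (fun h2 => hne (congrArg Fin.val h2))] at h1
  exact one_ne_zero h1

theorem pm_sum {d : ℕ} (σ : Perm (Fin d)) : ∑ p, pm σ p = d := by
  rw [Fintype.sum_prod_type_right]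
  simp only [pm_apply]
  simp

theorem pm_prod_pow {d : ℕ} (σ : Perm (Fin d)) (l : Fin d × Fin d → ℂ) :
    ∏ p, l p ^ pm σ p = ∏ i, l (σ i, i) := by
  rw [Fintype.prod_prod_type_right]
  refine prod_congr rfl fun b _ => ?_
  simp only [pm_apply]
  rw [Finset.prod_eq_single (σ b)]
  · simp
  · intro c _ hc
    rw [if_neg hc, pow_zero]
  · intro h
    exact absurd (mem_univ _) h

theorem pm_multinomial {d : ℕ} (σ : Perm (Fin d)) :
    Nat.multinomial univ (pm σ) = d.factorial := by
  have h1 := Nat.multinomial_spec (univ : Finset (Fin d × Fin d)) (pm σ)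
  have h2 : ∏ p : Fin d × Fin d, (pm σ p).factorial = 1 := by
    refine prod_eq_one fun p _ => ?_
    rw [← Prod.mk.eta (p := p), pm_apply]
    split_ifs <;> simp
  rw [h2, one_mul, pm_sum] at h1
  exact h1

/-- the coefficient of the monomial of a permutation in the power of a linear form -/
theorem coeff_pow {d : ℕ} (l : Fin d × Fin d → ℂ) (σ : Perm (Fin d)) :
    coeff (pm σ) ((∑ p, C (l p) * X p) ^ d) = d.factorial * ∏ i, l (σ i, i) := by
  classical
  rw [Finset.sum_pow_eq_sum_piAntidiag, coeff_sum]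
  have key : ∀ k : Fin d × Fin d → ℕ,
      coeff (pm σ) ((Nat.multinomial univ k : MvPolynomial (Fin d × Fin d) ℂ) *
        ∏ p, (C (l p) * X p) ^ k p) =
      if k = pm σ then (Nat.multinomial univ k : ℂ) * ∏ p, l p ^ k p else 0 := by
    intro k
    have h1 : ∏ p, ((C (l p) * X p) ^ k p : MvPolynomial (Fin d × Fin d) ℂ) =
        C (∏ p, l p ^ k p) * monomial (∑ p, Finsupp.single p (k p)) 1 := by
      rw [monomial_sum_one, map_prod, ← prod_mul_distrib]
      refine prod_congr rfl fun p _ => ?_
      rw [mul_pow, X_pow_eq_monomial, map_pow]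
    have h2 : ((Nat.multinomial univ k : ℕ) : MvPolynomial (Fin d × Fin d) ℂ) =
        C (Nat.multinomial univ k : ℂ) := by
      simp
    rw [h1, h2, ← mul_assoc, ← map_mul, coeff_C_mul, coeff_monomial]
    have h3 : (∑ p, Finsupp.single p (k p) : Fin d × Fin d →₀ ℕ) = pm σ ↔ k = pm σ := by
      constructor
      · intro h
        funext q
        rw [← h, Finsupp.finsetSum_apply]
        simp [Finsupp.single_apply]
      · intro h
        ext q
        rw [Finsupp.finsetSum_apply, ← h]
        simp [Finsupp.single_apply]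
    by_cases hk : k = pm σ
    · rw [if_pos (h3.2 hk), if_pos hk, mul_one]
    · rw [if_neg (fun h => hk (h3.1 h)), if_neg hk, mul_zero]
  rw [sum_congr rfl fun k _ => key k, Finset.sum_ite_eq' _ (pm σ : Fin d × Fin d → ℕ)]
  rw [if_pos, pm_multinomial, pm_prod_pow]
  rw [Finset.mem_piAntidiag]
  exact ⟨pm_sum σ, fun _ _ => mem_univ _⟩

/-- the coefficient of the monomial of a permutation in the generic determinant -/
theorem coeff_det {d : ℕ} (σ : Perm (Fin d)) :
    coeff (pm σ) (Matrix.of fun i j : Fin d =>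
      (X (i, j) : MvPolynomial (Fin d × Fin d) ℂ)).det = ((Perm.sign σ : ℤ) : ℂ) := by
  classical
  rw [Matrix.det_apply, coeff_sum]
  have key : ∀ τ : Perm (Fin d),
      coeff (pm σ) (Perm.sign τ • ∏ i, (Matrix.of fun i j : Fin d =>
        (X (i, j) : MvPolynomial (Fin d × Fin d) ℂ)) (τ i) i) =
      if τ = σ then ((Perm.sign τ : ℤ) : ℂ) else 0 := by
    intro τ
    have h1 : ∏ i, (Matrix.of fun i j : Fin d =>
        (X (i, j) : MvPolynomial (Fin d × Fin d) ℂ)) (τ i) i = monomial (pm τ) 1 := by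
      unfold pm
      rw [monomial_sum_one]
      rfl
    rw [h1]
    have h2 : (Perm.sign τ • (monomial (pm τ) (1 : ℂ)) : MvPolynomial (Fin d × Fin d) ℂ) =
        C ((Perm.sign τ : ℤ) : ℂ) * monomial (pm τ) 1 := by
      rcases Int.units_eq_one_or (Perm.sign τ) with h | h <;> rw [h] <;> simp
    rw [h2, coeff_C_mul, coeff_monomial]
    by_cases hk : τ = σ
    · rw [if_pos hk, hk, if_pos rfl, mul_one]
    · rw [if_neg hk, if_neg (fun h => hk (pm_injective h)), mul_zero]
  rw [sum_congr rfl fun τ _ => key τ, Finset.sum_ite_eq' _ σ, if_pos (mem_univ _)]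

end Pool.Agent.Helper6.SymW
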