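import Pool.Agent.Helper6.SymW.Num

set_option autoImplicit false

namespace Pool.Agent.Helper6.SymW

open Finset Real Filter

/-- the small quantities -/
theorem small (δ : ℝ) (hδ : 0 < δ) : ∀ᶠ d : ℕ in atTop, 2 ≤ d ∧ 1 ≤ log d ∧
    log d ^ 2 ≤ δ * d ∧ log d ≤ δ * d ∧ 1 ≤ δ * d ∧ 1 ≤ δ * log d ∧
    log (log d) ≤ δ * log d := by
  have hn : Tendsto (fun d : ℕ => (d : ℝ)) atTop atTop := tendsto_natCast_atTop_atTop
  have hl : Tendsto (fun d : ℕ => log (d : ℝ)) atTop atTop := tendsto_log_atTop.comp hn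
  have h1 : ∀ᶠ d : ℕ in atTop, log (d : ℝ) ^ 2 ≤ δ * d := by
    have := hn.eventually ((isLittleO_pow_log_id_atTop (n := 2)).bound hδ)
    filter_upwards [this] with d hd
    rw [Real.norm_of_nonneg (by positivity)] at hd
    simpa using hd
  have h2 : ∀ᶠ d : ℕ in atTop, log (log (d : ℝ)) ≤ δ * log d := by
    have := hl.eventually (isLittleO_log_id_atTop.bound hδ)
    filter_upwards [this, hl.eventually_ge_atTop 1] with d hd hd1
    rw [Real.norm_of_nonneg (log_nonneg hd1), id, Real.norm_of_nonneg (by linarith)] at hd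
    exact hd
  filter_upwards [eventually_ge_atTop 2, hl.eventually_ge_atTop 1, h1,
    hn.eventually (isLittleO_log_id_atTop.bound hδ), hn.eventually_ge_atTop (1 / δ),
    hl.eventually_ge_atTop (1 / δ), h2] with d a1 a2 a3 a4 a5 a6 a7
  refine ⟨a1, a2, a3, ?_, ?_, ?_, a7⟩
  · rw [Real.norm_of_nonneg (by linarith), id, Real.norm_of_nonneg (Nat.cast_nonneg d)] at a4
    exact a4
  · rw [div_le_iff₀ hδ] at a5
    linarith
  · rw [div_le_iff₀ hδ] at a6
    linarith

/-- the factorial from above -/
theorem factorial_le_aux (n : ℕ) (hn : 1 ≤ n) :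
    (n.factorial : ℝ) ≤ exp 1 * n * ((n : ℝ) / exp 1) ^ n := by
  induction n, hn using Nat.le_induction with
  | base =>
    simp
  | succ n hn ih =>
    have hn0 : (0 : ℝ) < n := by exact_mod_cast hn
    have he := exp_pos 1
    have h1 : exp 1 ≤ (((n : ℝ) + 1) / n) ^ (n + 1) := by
      have h2 : (1 : ℝ) ≤ ((n + 1 : ℕ) : ℝ) * log (((n : ℝ) + 1) / n) := by
        have h3 := one_sub_inv_le_log_of_pos (show (0 : ℝ) < ((n : ℝ) + 1) / n by positivity)
        have h4 : 1 - (((n : ℝ) + 1) / n)⁻¹ = 1 / ((n : ℝ) + 1) := by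
          field_simp
          ring
        rw [h4, div_le_iff₀ (by positivity)] at h3
        push_cast
        linarith
      calc exp 1 ≤ exp (((n + 1 : ℕ) : ℝ) * log (((n : ℝ) + 1) / n)) := exp_le_exp.2 h2
        _ = (((n : ℝ) + 1) / n) ^ (n + 1) := by
          rw [mul_comm, exp_mul, exp_log (by positivity), rpow_natCast]
    rw [Nat.factorial_succ]
    push_cast
    have h5 : ((n : ℝ) + 1) ^ (n + 1) = (((n : ℝ) + 1) / n) ^ (n + 1) * (n : ℝ) ^ (n + 1) := by
      rw [← mul_pow, div_mul_cancel₀ _ hn0.ne']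
    calc ((n : ℝ) + 1) * (n.factorial : ℝ)
        ≤ ((n : ℝ) + 1) * (exp 1 * n * ((n : ℝ) / exp 1) ^ n) :=
          mul_le_mul_of_nonneg_left ih (by positivity)
      _ = ((n : ℝ) + 1) * (exp 1 * ((n : ℝ) ^ (n + 1)) / exp 1 ^ n) := by
          rw [div_pow, pow_succ]
          ring
      _ ≤ ((n : ℝ) + 1) * ((((n : ℝ) + 1) / n) ^ (n + 1) * ((n : ℝ) ^ (n + 1)) / exp 1 ^ n) := by
          refine mul_le_mul_of_nonneg_left ?_ (by positivity)
          refine div_le_div_of_nonneg_right ?_ (by positivity)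
          exact mul_le_mul_of_nonneg_right h1 (by positivity)
      _ = exp 1 * ((n : ℝ) + 1) * ((((n : ℝ) + 1)) / exp 1) ^ (n + 1) := by
          rw [← h5, div_pow, pow_succ (exp 1)]
          field_simp

theorem log_le_half {x : ℝ} (hx : 0 < x) : log x ≤ x / 2 := by
  have h2 : log (x / 2) ≤ x / 2 - 1 := log_le_sub_one_of_pos (by positivity)
  rw [log_div hx.ne' (by norm_num)] at h2
  have h3 := log_two_lt_d9
  linarith

/-- the number of blocks, asymptotically -/
theorem exists_blocks' (ε : ℝ) (hε : 0 < ε) : ∀ᶠ d : ℕ in atTop,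
    ∃ K m l : ℕ, (K + 1) * m + l = d ∧ 1 ≤ m ∧
    (((d ^ m * d ^ l * K.factorial ^ m : ℕ) : ℝ) ≤ ((1 + ε) * log d) ^ d) := by
  have hδ : 0 < log (1 + ε) := log_pos (by linarith)
  filter_upwards [small (log (1 + ε) / 8) (by positivity)] with d ⟨hd2, hl1, a3, a4, a5, a6, a7⟩
  set δ := log (1 + ε) with hδd
  set L := log (d : ℝ) with hL
  have hd0 : (0 : ℝ) < d := by
    have : (2 : ℝ) ≤ d := by exact_mod_cast hd2
    linarith
  have hLL : 0 ≤ log L := log_nonneg hl1
  set k : ℕ := ⌈L⌉₊ with hk
  have hk1 : 1 ≤ k := Nat.one_le_ceil_iff.2 (by linarith)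
  have hk2 : L ≤ k := Nat.le_ceil _
  have hk3 : (k : ℝ) < L + 1 := Nat.ceil_lt_add_one (by linarith)
  have hkd : k ≤ d := by
    rw [hk]
    refine Nat.ceil_le.2 ?_
    have := log_le_sub_one_of_pos hd0
    linarith
  obtain ⟨K, hK⟩ : ∃ K, k = K + 1 := ⟨k - 1, by omega⟩
  have hKk : (k : ℝ) = K + 1 := by rw [hK]; push_cast; ring
  refine ⟨K, d / k, d % k, ?_, ?_, ?_⟩
  · rw [← hK]
    exact Nat.div_add_mod d k
  · exact (Nat.one_le_div_iff (by omega)).2 hkd
  · set m := d / k with hm
    set l := d % k with hl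
    have hmk : (m : ℝ) * k + l = d := by
      have h1 := Nat.div_add_mod d k
      have h2 : m * k + l = d := by rw [hm, hl, mul_comm]; exact h1
      exact_mod_cast h2
    have hm0 : (0 : ℝ) ≤ m := Nat.cast_nonneg _
    have hl0 : (0 : ℝ) ≤ l := Nat.cast_nonneg _
    have hK0 : (0 : ℝ) ≤ K := Nat.cast_nonneg _
    have hlk : (l : ℝ) ≤ K := by
      have h1 : l ≤ K := by
        have := Nat.mod_lt d (show 0 < k by omega)
        omega
      exact_mod_cast h1
    have hKL : (K : ℝ) ≤ L := by linarith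
    have hmL : (m : ℝ) * L ≤ d := by
      have := mul_le_mul_of_nonneg_left hk2 hm0
      linarith
    have hlL : (l : ℝ) * L ≤ L ^ 2 := by
      have := mul_le_mul_of_nonneg_right (hlk.trans hKL) (show 0 ≤ L by linarith)
      nlinarith
    -- bound of the factorial
    have hfac : log (K.factorial : ℝ) ≤ K * log L - K + 1 + log L := by
      rcases Nat.eq_zero_or_pos K with h0 | h0
      · rw [h0]
        simp
        linarith
      · have hK1 : (1 : ℝ) ≤ K := by exact_mod_cast h0
        have h1 := log_le_log (by exact_mod_cast Nat.factorial_pos K) (factorial_le_aux K h0)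
        have hKp : (0 : ℝ) < K := by linarith
        rw [log_mul (by positivity) (by positivity), log_mul (by positivity) (by positivity),
          log_exp, log_pow, log_div (by positivity) (by positivity), log_exp] at h1
        have h2 : log (K : ℝ) ≤ log L := log_le_log hKp hKL
        have h3 : (K : ℝ) * log K ≤ K * log L := mul_le_mul_of_nonneg_left h2 hK0
        linarith
    have hKm : (m : ℝ) * K = d - l - m := by
      have : (m : ℝ) * K = m * k - m := by rw [hKk]; ring
      rw [this]
      linarith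
    have hmd : (m : ℝ) ≤ δ / 8 * d := by
      have h1 : (m : ℝ) * 1 ≤ m * (δ / 8 * L) := mul_le_mul_of_nonneg_left a6 hm0
      have h2 : (m : ℝ) * (δ / 8 * L) = δ / 8 * (m * L) := by ring
      have h3 : δ / 8 * ((m : ℝ) * L) ≤ δ / 8 * d := mul_le_mul_of_nonneg_left hmL (by positivity)
      linarith
    have hmLL : (m : ℝ) * log L ≤ δ / 8 * d := by
      have h1 : (m : ℝ) * log L ≤ m * (δ / 8 * L) := mul_le_mul_of_nonneg_left a7 hm0
      have h2 : (m : ℝ) * (δ / 8 * L) = δ / 8 * (m * L) := by ring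
      have h3 : δ / 8 * ((m : ℝ) * L) ≤ δ / 8 * d := mul_le_mul_of_nonneg_left hmL (by positivity)
      linarith
    have hmKLL : (m : ℝ) * K * log L ≤ d * log L := by
      refine mul_le_mul_of_nonneg_right ?_ hLL
      linarith
    have htot : (m : ℝ) * L + l * L + m * log (K.factorial : ℝ) ≤ d * log L + d * δ := by
      have h1 : (m : ℝ) * log (K.factorial : ℝ) ≤ m * (K * log L - K + 1 + log L) :=
        mul_le_mul_of_nonneg_left hfac hm0
      have h2 : (m : ℝ) * (K * log L - K + 1 + log L) =
          m * K * log L - m * K + m + m * log L := by ring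
      have hlδ : (l : ℝ) ≤ δ / 8 * d := by linarith
      have hdδ : 0 ≤ δ * d := by positivity
      have h3 : δ / 8 * d = δ * d / 8 := by ring
      rw [h3] at a3 hmd hmLL hlδ
      linarith
    have hfp : (0 : ℝ) < K.factorial := by exact_mod_cast Nat.factorial_pos K
    push_cast
    rw [← log_le_log_iff (by positivity) (by positivity), log_mul (by positivity) (by positivity),
      log_mul (by positivity) (by positivity), log_pow, log_pow, log_pow, log_pow,
      log_mul (by positivity) (by positivity)]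
    linarith

/-- the lower bound, asymptotically -/
theorem lower_num' {d r : ℕ} {ε : ℝ} (hε : 0 < ε) (hε1 : ε < 1) (hd : 2 ≤ d)
    (h : (d.factorial : ℝ) ≤ ((1 + ε) * log d) ^ d * r) :
    ((1 - ε) * d / (exp 1 * log d)) ^ d ≤ (r : ℝ) := by
  have hlog := log_pos_two hd
  have hd0 : (0 : ℝ) < d := by
    have : (2 : ℝ) ≤ d := by exact_mod_cast hd
    linarith
  have h1 := (factorial_ge d).trans h
  have h2 : (0 : ℝ) < ((1 + ε) * log d) ^ d := by positivity
  have h3 : ((d / exp 1) / ((1 + ε) * log d)) ^ d ≤ (r : ℝ) := by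
    rw [div_pow, div_le_iff₀ h2]
    linarith
  refine le_trans (pow_le_pow_left₀ ?_ ?_ _) h3
  · have : 0 < 1 - ε := by linarith
    positivity
  · rw [div_div, div_le_div_iff₀ (by positivity) (by positivity)]
    have h4 : (1 - ε) * (1 + ε) ≤ 1 := by nlinarith
    calc (1 - ε) * d * (exp 1 * ((1 + ε) * log d)) =
        ((1 - ε) * (1 + ε)) * (d * (exp 1 * log d)) := by ring
      _ ≤ 1 * (d * (exp 1 * log d)) := mul_le_mul_of_nonneg_right h4 (by positivity)
      _ = d * (exp 1 * log d) := one_mul _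

/-- the upper bound, asymptotically -/
theorem upper_num' (ε : ℝ) (hε : 0 < ε) : ∀ᶠ d : ℕ in atTop,
    2 ^ d * ∑ j ∈ range (d + 1), ((j : ℝ) + 1) ^ d / j.factorial ≤
      ((2 + ε) * d / (exp 1 * log d)) ^ d := by
  have hδ : 0 < log (1 + ε / 2) := log_pos (by linarith)
  filter_upwards [small (log (1 + ε / 2) / 8) (by positivity)] with d ⟨hd2, hl1, a3, a4, a5, a6, a7⟩
  set δ := log (1 + ε / 2) with hδd
  set L := log (d : ℝ) with hL
  have hd0 : (0 : ℝ) < d := by
    have : (2 : ℝ) ≤ d := by exact_mod_cast hd2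
    linarith
  have hL0 : 0 < L := by linarith
  have hLL : 0 ≤ log L := log_nonneg hl1
  set lam := L - log L with hlam
  have hhalf := log_le_half hL0
  have hlam2 : L / 2 ≤ lam := by
    rw [hlam]
    linarith
  have hlam0 : 0 < lam := by linarith
  have helam : exp lam = d / L := by
    rw [hlam, exp_sub, hL, exp_log hd0, ← hL, exp_log hL0]
  have hf : (0 : ℝ) < d.factorial := by exact_mod_cast Nat.factorial_pos d
  have hlamd : (0 : ℝ) < lam ^ d := by positivity
  have h1 : ∀ j : ℕ, ((j : ℝ) + 1) ^ d / j.factorial ≤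
      (d.factorial / lam ^ d * (d / L)) * ((d / L : ℝ) ^ j / j.factorial) := by
    intro j
    have h2 := pow_div_factorial_le_exp (lam * ((j : ℝ) + 1)) (by positivity) d
    rw [div_le_iff₀ hf, mul_pow] at h2
    have h3 : exp (lam * ((j : ℝ) + 1)) = (d / L) * (d / L : ℝ) ^ j := by
      rw [exp_mul, helam, rpow_add (by positivity), rpow_one, rpow_natCast]
      ring
    rw [h3] at h2
    have h4 : ((j : ℝ) + 1) ^ d ≤ (d.factorial / lam ^ d * (d / L)) * (d / L : ℝ) ^ j := by
      rw [div_mul_eq_mul_div, div_mul_eq_mul_div, le_div_iff₀ hlamd]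
      linarith
    have h5 : (0 : ℝ) < j.factorial := by exact_mod_cast Nat.factorial_pos j
    rw [← mul_div_assoc]
    exact div_le_div_of_nonneg_right h4 h5.le
  have h6 : ∑ j ∈ range (d + 1), ((j : ℝ) + 1) ^ d / j.factorial ≤
      (d.factorial / lam ^ d * (d / L)) * exp (d / L) := by
    refine (sum_le_sum fun j _ => h1 j).trans ?_
    rw [← mul_sum]
    exact mul_le_mul_of_nonneg_left (sum_le_exp_of_nonneg (by positivity) _) (by positivity)
  have h7 := factorial_le_aux d (by omega)
  have h8 : 2 ^ d * ∑ j ∈ range (d + 1), ((j : ℝ) + 1) ^ d / j.factorial ≤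
      2 ^ d * ((exp 1 * d * ((d : ℝ) / exp 1) ^ d / lam ^ d * (d / L)) * exp (d / L)) := by
    refine (mul_le_mul_of_nonneg_left h6 (by positivity)).trans ?_
    gcongr
  refine h8.trans ?_
  have hloglam : log L - log lam ≤ δ / 4 := by
    have h9 : log (L / lam) ≤ L / lam - 1 := log_le_sub_one_of_pos (by positivity)
    rw [log_div hL0.ne' hlam0.ne'] at h9
    have h10 : L / lam - 1 = log L / lam := by
      rw [div_sub_one hlam0.ne', hlam]
      congr 1
      ring
    have h11 : log L / lam ≤ log L / (L / 2) :=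
      div_le_div_of_nonneg_left hLL (by positivity) hlam2
    have h12 : log L / (L / 2) ≤ δ / 4 := by
      rw [div_le_iff₀ (by positivity)]
      linarith
    linarith
  have hdL : (d : ℝ) / L ≤ δ / 8 * d := by
    rw [div_le_iff₀ hL0]
    have : (d : ℝ) * 1 ≤ d * (δ / 8 * L) := mul_le_mul_of_nonneg_left a6 hd0.le
    linarith
  rw [← log_le_log_iff (by positivity) (by positivity)]
  rw [log_mul (by positivity) (by positivity), log_mul (by positivity) (by positivity),
    log_mul (by positivity) (by positivity), log_div (by positivity) (by positivity),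
    log_mul (by positivity) (by positivity), log_mul (by positivity) (by positivity),
    log_exp, log_pow, log_pow, log_pow, log_pow, log_exp, log_div (by positivity) (by positivity),
    log_div (by positivity) (by positivity), log_div (by positivity) (by positivity),
    log_mul (by positivity) (by positivity), log_mul (by positivity) (by positivity), log_exp]
  have h13 : log (2 + ε) = log 2 + δ := by
    rw [hδd, ← log_mul (by norm_num) (by positivity)]
    congr 1
    ring
  rw [h13, ← hL]
  have h14 : (d : ℝ) * (log L - log lam) ≤ d * (δ / 4) := mul_le_mul_of_nonneg_left hloglam hd0.le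
  have h15 : (0 : ℝ) ≤ δ * d := by positivity
  have h16 : 0 ≤ log L := hLL
  nlinarith [h14, h15, hdL, a4, a5, h16]

end Pool.Agent.Helper6.SymW
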