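import Pool.Agent.Helper6.SymW.Orb

set_option autoImplicit false

namespace Pool.Agent.Helper6.SymW

open Equiv Finset Pool.Agent.Helper26.DR

/-- sign of a bit -/
noncomputable def bs (b : Bool) : ℂ := if b then 1 else -1

/-- the index set of the decomposition -/
abbrev IX (d : ℕ) : Type := (Σ j : Fin (d + 1), CQ d j) × (Fin d → Bool)

/-- the coefficients -/
noncomputable def cf (d : ℕ) (x : IX d) : ℂ :=
  (-1) ^ (x.1.1 : ℕ) * ((x.1.1 : ℕ).factorial : ℂ) * cs (rep x.1.2) *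
    (2 ^ d * d.factorial : ℂ)⁻¹ * ∏ i, bs (x.2 i)

/-- the matrices -/
noncomputable def mt (d : ℕ) (x : IX d) (i l : Fin d) : ℂ := bs (x.2 i) * cw (rep x.1.2) i l

theorem det_eq (d : ℕ) (A : Matrix (Fin d) (Fin d) ℂ) :
    A.det = ∑ x : IX d, cf d x * (∑ i, ∑ l, mt d x i l * A i l) ^ d := by
  have hne : (2 ^ d * d.factorial : ℂ) ≠ 0 := by
    have h1 : (d.factorial : ℂ) ≠ 0 := by exact_mod_cast d.factorial_ne_zero
    exact mul_ne_zero (pow_ne_zero _ two_ne_zero) h1
  have h0 : A.det = ∑ j : Fin (d + 1), ∑ q : CQ d j,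
      ((-1 : ℂ) ^ (j : ℕ) * (((j : ℕ).factorial : ℂ) * ct (rep q) A)) := by
    rw [det_col, Finset.sum_range]
    refine sum_congr rfl fun j _ => ?_
    rw [sum_CQ, mul_sum]
  rw [h0, Fintype.sum_prod_type, Fintype.sum_sigma]
  refine sum_congr rfl fun j _ => sum_congr rfl fun q _ => ?_
  have hp := polar (fun i : Fin d => ∑ l, cw (rep q) i l * A i l)
  have h2 : ∏ i, ∑ l, cw (rep q) i l * A i l = ((2 ^ d * d.factorial : ℂ))⁻¹ *
      ∑ e : Fin d → Bool, (∏ i, (if e i then (1 : ℂ) else -1)) *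
      (∑ i, (if e i then (1 : ℂ) else -1) * ∑ l, cw (rep q) i l * A i l) ^ d := by
    rw [hp, ← mul_assoc, inv_mul_cancel₀ hne, one_mul]
  unfold ct
  rw [h2, mul_sum, mul_sum, mul_sum, mul_sum]
  refine sum_congr rfl fun e _ => ?_
  have h3 : ∑ i, ∑ l, mt d (⟨j, q⟩, e) i l * A i l =
      ∑ i, (if e i then (1 : ℂ) else -1) * ∑ l, cw (rep q) i l * A i l := by
    refine sum_congr rfl fun i _ => ?_
    rw [mul_sum]
    refine sum_congr rfl fun l _ => ?_
    simp only [mt, bs]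
    ring
  rw [h3]
  simp only [cf, bs]
  ring

/-- the action of the simultaneous permutations on the index set -/
noncomputable def actI {d : ℕ} (π : Perm (Fin d)) : Perm (IX d) :=
  Equiv.prodCongr (Equiv.sigmaCongrRight fun _ => permQ π) (π.symm.arrowCongr (Equiv.refl Bool))

theorem cf_actI {d : ℕ} (π : Perm (Fin d)) (x : IX d) : cf d (actI π x) = cf d x := by
  obtain ⟨⟨j, q⟩, e⟩ := x
  have h1 : cf d (actI π (⟨j, q⟩, e)) = (-1) ^ (j : ℕ) * ((j : ℕ).factorial : ℂ) *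
      cs (rep (permQ π q)) * (2 ^ d * d.factorial : ℂ)⁻¹ * ∏ i, bs (e (π i)) := rfl
  rw [h1, cs_permQ, Equiv.prod_comp π (fun i => bs (e i))]
  rfl

theorem mt_actI {d : ℕ} (π : Perm (Fin d)) (x : IX d) (i l : Fin d) :
    mt d (actI π x) i l = mt d x (π i) (π l) := by
  obtain ⟨⟨j, q⟩, e⟩ := x
  have h1 : mt d (actI π (⟨j, q⟩, e)) i l = bs (e (π i)) * cw (rep (permQ π q)) i l := rfl
  rw [h1, cw_permQ]
  rfl

theorem card_IX (d : ℕ) : (Fintype.card (IX d) : ℝ) ≤
    2 ^ d * ∑ j ∈ range (d + 1), ((j : ℝ) + 1) ^ d / j.factorial := by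
  rw [Fintype.card_prod, Fintype.card_sigma, Fintype.card_fun, Fintype.card_bool, Fintype.card_fin]
  push_cast
  rw [mul_comm, Finset.sum_range]
  refine mul_le_mul_of_nonneg_left (sum_le_sum fun j _ => ?_) (by positivity)
  rw [le_div_iff₀ (by exact_mod_cast Nat.factorial_pos _)]
  exact_mod_cast card_CQ d j

/-- a symmetric decomposition -/
theorem exists_sym (d : ℕ) (hd : 1 ≤ d) :
    ∃ (r : ℕ) (f : Fin r → Fin d × Fin d → ℂ),
      (Matrix.of fun i j : Fin d => (MvPolynomial.X (i, j) : MvPolynomial (Fin d × Fin d) ℂ)).det =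
        ∑ t, (∑ p, MvPolynomial.C (f t p) * MvPolynomial.X p) ^ d ∧
      (∀ π : Perm (Fin d), ∃ τ : Perm (Fin r), ∀ t i j, f t (π i, π j) = f (τ t) (i, j)) ∧
      (r : ℝ) ≤ 2 ^ d * ∑ j ∈ range (d + 1), ((j : ℝ) + 1) ^ d / j.factorial := by
  have hroot : ∀ c : ℂ, ∃ z : ℂ, z ^ d = c := fun c => IsAlgClosed.exists_pow_nat_eq _ (by omega)
  choose rt hrt using hroot
  let E := Fintype.equivFin (IX d)
  refine ⟨Fintype.card (IX d), fun t p => rt (cf d (E.symm t)) * mt d (E.symm t) p.1 p.2, ?_, ?_,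
    card_IX d⟩
  · apply MvPolynomial.funext
    intro x
    rw [RingHom.map_det, map_sum]
    have hM : (MvPolynomial.eval x).mapMatrix (Matrix.of fun i j : Fin d =>
        (MvPolynomial.X (i, j) : MvPolynomial (Fin d × Fin d) ℂ)) =
        Matrix.of fun i j : Fin d => x (i, j) := by
      ext i j
      simp
    rw [hM, det_eq]
    rw [← Equiv.sum_comp E.symm]
    refine sum_congr rfl fun t _ => ?_
    simp only [map_pow, map_sum, map_mul, MvPolynomial.eval_C, MvPolynomial.eval_X,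
      Matrix.of_apply]
    conv_lhs => rw [← hrt (cf d (E.symm t))]
    rw [← mul_pow]
    congr 1
    rw [Fintype.sum_prod_type, Finset.mul_sum]
    refine Finset.sum_congr rfl fun i _ => ?_
    rw [Finset.mul_sum]
    refine Finset.sum_congr rfl fun j _ => ?_
    ring
  · intro π
    refine ⟨(E.symm.trans (actI π)).trans E, fun t i j => ?_⟩
    show rt (cf d (E.symm t)) * mt d (E.symm t) (π i) (π j) =
      rt (cf d (E.symm (E (actI π (E.symm t))))) * mt d (E.symm (E (actI π (E.symm t)))) i j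
    rw [Equiv.symm_apply_apply, cf_actI, mt_actI]

end Pool.Agent.Helper6.SymW
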