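import Pool.Agent.Helper6.SymW.StabB
import Pool.Agent.Helper6.SymW.Upper
import Pool.Agent.Helper6.SymW.NumB
import Pool.Agent.Helper26.DR.St.Final
import Pool.Agent.Helper26.DR.St.Waring

set_option autoImplicit false

namespace Pool.Agent.Helper6.SymW

open Equiv Finset MvPolynomial

/-- the lower bound for a subgroup, for limits of decompositions -/
theorem group_le {d r : ℕ} (hd : 2 ≤ d) (H : Subgroup (Perm (Fin d)))
    (G : ℕ → MvPolynomial (Fin d × Fin d) ℂ)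
    (hG : ∀ m : Fin d × Fin d →₀ ℕ, Filter.Tendsto (fun k => coeff m (G k)) Filter.atTop
      (nhds (coeff m (Matrix.of fun i j : Fin d =>
        (X (i, j) : MvPolynomial (Fin d × Fin d) ℂ)).det)))
    (hr : ∀ k, ∃ f : Fin r → Fin d × Fin d → ℂ,
      G k = ∑ t, (∑ p, C (f t p) * X p) ^ d ∧
      ∀ π ∈ H, ∀ t, ∃ u, ∃ c : ℂ, ∀ i j, f t (π i, π j) = c * f u (i, j)) :
    (Nat.card H : ℝ) ≤ (30 * Real.log d) ^ d * r := by
  obtain ⟨K, m, l, hKml, hm, hnum⟩ := exists_blocks hd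
  have hcard : Fintype.card ((Fin (K + 1) × Fin m) ⊕ Fin l) = Fintype.card (Fin d) := by
    simp [hKml]
  let e := Fintype.equivOfCardEq hcard
  obtain ⟨f, hf, t, ht⟩ := exists_good e G
    (fun σ => by
      have h := hG (pm σ)
      rw [coeff_det] at h
      exact h)
    (fun f => ∀ π ∈ H, ∀ t, ∃ u, ∃ c : ℂ, ∀ i j, f t (π i, π j) = c * f u (i, j)) hr
  have h1 := card_group_le hm e H f hf t ht
  calc (Nat.card H : ℝ) ≤ (((d ^ m * d ^ l * (K + 2) ^ d) * r : ℕ) : ℝ) := by exact_mod_cast h1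
    _ = ((d ^ m * d ^ l * (K + 2) ^ d : ℕ) : ℝ) * r := by push_cast; ring
    _ ≤ (30 * Real.log d) ^ d * r := mul_le_mul_of_nonneg_right hnum (Nat.cast_nonneg r)

/-- orbit counting with the refined bound of the stabiliser -/
theorem card_group_le' {K m l d r : ℕ} (hm : 1 ≤ m)
    (e : (Fin (K + 1) × Fin m) ⊕ Fin l ≃ Fin d)
    (H : Subgroup (Perm (Fin d))) (f : Fin r → Fin d × Fin d → ℂ)
    (hsym : ∀ π ∈ H, ∀ t, ∃ u, ∃ c : ℂ, ∀ i j, f t (π i, π j) = c * f u (i, j))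
    (t : Fin r) (hdet : ∀ s, (bl e (f t) s).det ≠ 0) :
    Nat.card H ≤ (d ^ m * d ^ l * K.factorial ^ m) * r :=
  (card_group_le_stab hm e H f hsym t hdet).trans
    (Nat.mul_le_mul_right _ (card_stab' hm e (f t) hdet))

/-- the lower bound for a subgroup, for limits of decompositions, asymptotically -/
theorem group_le' (ε : ℝ) (hε : 0 < ε) : ∀ᶠ d : ℕ in Filter.atTop,
    ∀ (r : ℕ) (H : Subgroup (Perm (Fin d))) (G : ℕ → MvPolynomial (Fin d × Fin d) ℂ),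
    (∀ m : Fin d × Fin d →₀ ℕ, Filter.Tendsto (fun k => coeff m (G k)) Filter.atTop
      (nhds (coeff m (Matrix.of fun i j : Fin d =>
        (X (i, j) : MvPolynomial (Fin d × Fin d) ℂ)).det))) →
    (∀ k, ∃ f : Fin r → Fin d × Fin d → ℂ,
      G k = ∑ t, (∑ p, C (f t p) * X p) ^ d ∧
      ∀ π ∈ H, ∀ t, ∃ u, ∃ c : ℂ, ∀ i j, f t (π i, π j) = c * f u (i, j)) →
    (Nat.card H : ℝ) ≤ ((1 + ε) * Real.log d) ^ d * r := by
  filter_upwards [exists_blocks' ε hε] with d hd r H G hG hr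
  obtain ⟨K, m, l, hKml, hm, hnum⟩ := hd
  have hcard : Fintype.card ((Fin (K + 1) × Fin m) ⊕ Fin l) = Fintype.card (Fin d) := by
    simp [hKml]
  let e := Fintype.equivOfCardEq hcard
  obtain ⟨f, hf, t, ht⟩ := exists_good e G
    (fun σ => by
      have h := hG (pm σ)
      rw [coeff_det] at h
      exact h)
    (fun f => ∀ π ∈ H, ∀ t, ∃ u, ∃ c : ℂ, ∀ i j, f t (π i, π j) = c * f u (i, j)) hr
  have h1 := card_group_le' hm e H f hf t ht
  calc (Nat.card H : ℝ) ≤ (((d ^ m * d ^ l * K.factorial ^ m) * r : ℕ) : ℝ) := by exact_mod_cast h1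
    _ = ((d ^ m * d ^ l * K.factorial ^ m : ℕ) : ℝ) * r := by push_cast; ring
    _ ≤ ((1 + ε) * Real.log d) ^ d * r := mul_le_mul_of_nonneg_right hnum (Nat.cast_nonneg r)

/-- the comparison of the bounds -/
theorem gap_num (C0 : ℝ) (hC : 0 < C0) : ∀ᶠ d : ℕ in Filter.atTop,
    (d : ℝ) ^ ((d : ℝ) / 7) * (C0 ^ d * (d : ℝ) ^ ((21 / 25 : ℝ) * d)) <
      (d / (82 * Real.log d)) ^ d := by
  have h1 := (isLittleO_log_rpow_atTop (show (0 : ℝ) < 3 / 175 by norm_num)).bound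
    (show (0 : ℝ) < (100 * C0)⁻¹ by positivity)
  have h2 := tendsto_natCast_atTop_atTop (R := ℝ) |>.eventually h1
  filter_upwards [h2, Filter.eventually_ge_atTop 2] with d hd hd2
  have hlog := log_pos_two hd2
  have hd0 : (0 : ℝ) < d := by
    have : (2 : ℝ) ≤ d := by exact_mod_cast hd2
    linarith
  rw [Real.norm_of_nonneg (by linarith), Real.norm_of_nonneg (by positivity)] at hd
  have h3 : (d : ℝ) ^ ((21 / 25 : ℝ) * d) = ((d : ℝ) ^ (21 / 25 : ℝ)) ^ d := by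
    rw [Real.rpow_mul hd0.le, Real.rpow_natCast]
  have h3' : (d : ℝ) ^ ((d : ℝ) / 7) = ((d : ℝ) ^ (1 / 7 : ℝ)) ^ d := by
    rw [← Real.rpow_natCast, ← Real.rpow_mul hd0.le]
    congr 1
    ring
  rw [h3, h3', ← mul_pow, ← mul_pow]
  refine pow_lt_pow_left₀ ?_ (by positivity) (by omega)
  rw [lt_div_iff₀ (by positivity)]
  have h4 : (d : ℝ) = (d : ℝ) ^ (1 / 7 : ℝ) * (d : ℝ) ^ (21 / 25 : ℝ) * (d : ℝ) ^ (3 / 175 : ℝ) := by
    rw [← Real.rpow_add hd0, ← Real.rpow_add hd0]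
    norm_num
  have h5 : 0 < (d : ℝ) ^ (1 / 7 : ℝ) * (d : ℝ) ^ (21 / 25 : ℝ) := by positivity
  have h6 : 0 < (d : ℝ) ^ (3 / 175 : ℝ) := by positivity
  calc (d : ℝ) ^ (1 / 7 : ℝ) * (C0 * (d : ℝ) ^ (21 / 25 : ℝ)) * (82 * Real.log d)
      = (d : ℝ) ^ (1 / 7 : ℝ) * (d : ℝ) ^ (21 / 25 : ℝ) * (82 * C0 * Real.log d) := by ring
    _ ≤ (d : ℝ) ^ (1 / 7 : ℝ) * (d : ℝ) ^ (21 / 25 : ℝ) *
        (82 * C0 * ((100 * C0)⁻¹ * (d : ℝ) ^ (3 / 175 : ℝ))) := by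
        refine mul_le_mul_of_nonneg_left ?_ h5.le
        exact mul_le_mul_of_nonneg_left hd (by positivity)
    _ = (d : ℝ) ^ (1 / 7 : ℝ) * (d : ℝ) ^ (21 / 25 : ℝ) *
        ((82 / 100) * (d : ℝ) ^ (3 / 175 : ℝ)) := by
        congr 1
        rw [← mul_assoc]
        congr 1
        field_simp
    _ < (d : ℝ) ^ (1 / 7 : ℝ) * (d : ℝ) ^ (21 / 25 : ℝ) * (d : ℝ) ^ (3 / 175 : ℝ) := by
        refine mul_lt_mul_of_pos_left ?_ h5
        linarith
    _ = d := h4.symm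

end Pool.Agent.Helper6.SymW
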