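import Mathlib

set_option autoImplicit false

namespace Pool.Agent.Helper6.SymW

open Finset Real

theorem log_pos_two {d : ℕ} (hd : 2 ≤ d) : 2 / 3 < log d := by
  have h1 : log 2 ≤ log d := log_le_log (by norm_num) (by exact_mod_cast hd)
  have h2 := log_two_gt_d9
  linarith

theorem exp_one_lt3 : exp 1 < 2.7182818286 := exp_one_lt_d9

/-- the square of the logarithm -/
theorem log_sq_le {x : ℝ} (hx : 1 ≤ x) : log x * log x ≤ x := by
  have hx0 : 0 < x := by linarith
  have hs : 0 < √x := sqrt_pos.2 hx0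
  have h1 : log x = 2 * log (√x) := by
    rw [log_sqrt hx0.le]
    ring
  have h2 : log (√x / 2) ≤ √x / 2 - 1 := log_le_sub_one_of_pos (by positivity)
  rw [log_div hs.ne' (by norm_num)] at h2
  have h3 : log 2 < 1 := by
    have := log_two_lt_d9
    linarith
  have h4 : log x ≤ √x := by
    rw [h1]
    linarith
  have h5 : 0 ≤ log x := log_nonneg hx
  calc log x * log x ≤ √x * √x := mul_le_mul h4 h4 h5 hs.le
    _ = x := mul_self_sqrt hx0.le

/-- the number of blocks -/
theorem exists_blocks {d : ℕ} (hd : 2 ≤ d) : ∃ K m l : ℕ, (K + 1) * m + l = d ∧ 1 ≤ m ∧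
    (((d ^ m * d ^ l * (K + 2) ^ d : ℕ) : ℝ) ≤ (30 * log d) ^ d) := by
  have hlog := log_pos_two hd
  have hd0 : (0 : ℝ) < d := by
    have : (2 : ℝ) ≤ d := by exact_mod_cast hd
    linarith
  have hd1 : (1 : ℝ) ≤ d := by
    have : (2 : ℝ) ≤ d := by exact_mod_cast hd
    linarith
  set k : ℕ := ⌈log d⌉₊ with hk
  have hk1 : 1 ≤ k := Nat.one_le_ceil_iff.2 (by linarith)
  have hk2 : log d ≤ k := Nat.le_ceil _
  have hk3 : (k : ℝ) < log d + 1 := Nat.ceil_lt_add_one (by linarith)
  have hkd : k ≤ d := by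
    rw [hk]
    refine Nat.ceil_le.2 ?_
    have := log_le_sub_one_of_pos hd0
    linarith
  obtain ⟨K, hK⟩ : ∃ K, k = K + 1 := ⟨k - 1, by omega⟩
  refine ⟨K, d / k, d % k, ?_, ?_, ?_⟩
  · rw [← hK]
    exact Nat.div_add_mod d k
  · exact (Nat.one_le_div_iff (by omega)).2 hkd
  · have hm : ((d / k : ℕ) : ℝ) * log d ≤ d := by
      have h1 : ((d / k : ℕ) : ℝ) * k ≤ d := by exact_mod_cast Nat.div_mul_le_self d k
      exact (mul_le_mul_of_nonneg_left hk2 (Nat.cast_nonneg _)).trans h1
    have hl : ((d % k : ℕ) : ℝ) * log d ≤ d := by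
      have h1 : (d % k : ℕ) ≤ k - 1 := by
        have := Nat.mod_lt d (show 0 < k by omega)
        omega
      have h2 : ((d % k : ℕ) : ℝ) ≤ log d := by
        have h3 : ((d % k : ℕ) : ℝ) ≤ ((k - 1 : ℕ) : ℝ) := by exact_mod_cast h1
        have h4 : ((k - 1 : ℕ) : ℝ) = (k : ℝ) - 1 := by
          rw [hK]
          push_cast
          simp
        linarith
      exact (mul_le_mul_of_nonneg_right h2 (by linarith)).trans (log_sq_le hd1)
    have hpow : ∀ a : ℕ, (a : ℝ) * log d ≤ d → ((d : ℝ)) ^ a ≤ exp 1 ^ d := by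
      intro a ha
      rw [← exp_nat_mul, mul_one]
      calc (d : ℝ) ^ a = exp ((a : ℝ) * log d) := by
            rw [mul_comm, exp_mul, exp_log hd0, rpow_natCast]
        _ ≤ exp d := exp_le_exp.2 ha
    have h5 : ((K : ℝ) + 2) ≤ 4 * log d := by
      have h6 : (k : ℝ) = K + 1 := by
        rw [hK]
        push_cast
        ring
      linarith
    push_cast
    calc (d : ℝ) ^ (d / k) * (d : ℝ) ^ (d % k) * ((K : ℝ) + 2) ^ d
        ≤ exp 1 ^ d * exp 1 ^ d * (4 * log d) ^ d := by
          refine mul_le_mul (mul_le_mul (hpow _ hm) (hpow _ hl) (by positivity) (by positivity))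
            (pow_le_pow_left₀ (by positivity) h5 _) (by positivity) (by positivity)
      _ = (4 * (exp 1 * exp 1) * log d) ^ d := by
          rw [← mul_pow, ← mul_pow]
          congr 1
          ring
      _ ≤ (30 * log d) ^ d := by
          refine pow_le_pow_left₀ (by positivity) ?_ _
          refine mul_le_mul_of_nonneg_right ?_ (by linarith)
          have h7 := exp_one_lt3
          have h8 := exp_pos 1
          nlinarith

/-- the factorial from below -/
theorem factorial_ge (d : ℕ) : ((d : ℝ) / exp 1) ^ d ≤ d.factorial := by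
  have h1 := pow_div_factorial_le_exp (d : ℝ) (Nat.cast_nonneg d) d
  have h2 : (0 : ℝ) < d.factorial := by exact_mod_cast Nat.factorial_pos d
  rw [div_le_iff₀ h2] at h1
  rw [div_pow, ← exp_nat_mul, mul_one, div_le_iff₀ (exp_pos _)]
  linarith

theorem lower_num {d r : ℕ} (hd : 2 ≤ d)
    (h : (d.factorial : ℝ) ≤ r * (30 * log d) ^ d) : (d / (82 * log d)) ^ d ≤ (r : ℝ) := by
  have hlog := log_pos_two hd
  have h1 := (factorial_ge d).trans h
  have h2 : (0 : ℝ) < (30 * log d) ^ d := by positivity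
  rw [← div_le_iff₀ h2, ← div_pow] at h1
  refine le_trans (pow_le_pow_left₀ (by positivity) ?_ _) h1
  rw [div_div]
  refine div_le_div_of_nonneg_left (Nat.cast_nonneg d) (by positivity) ?_
  have h7 := exp_one_lt3
  nlinarith

theorem factorial_mul_le {d : ℕ} (hd : 2 ≤ d) : d.factorial * d ≤ d ^ d := by
  obtain ⟨k, rfl⟩ : ∃ k, d = k + 1 := ⟨d - 1, by omega⟩
  have h1 := Nat.factorial_mul_descFactorial (show k ≤ k + 1 by omega)
  rw [Nat.add_sub_cancel_left, Nat.factorial_one, one_mul] at h1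
  rw [← h1, pow_succ]
  exact Nat.mul_le_mul_right _ (Nat.descFactorial_le_pow _ _)

theorem upper_num {d : ℕ} (hd : 2 ≤ d) :
    2 ^ d * ∑ j ∈ range (d + 1), ((j : ℝ) + 1) ^ d / j.factorial ≤ (6 * d / log d) ^ d := by
  have hlog := log_pos_two hd
  have hd0 : (0 : ℝ) < d := by
    have : (2 : ℝ) ≤ d := by exact_mod_cast hd
    linarith
  have hf : (0 : ℝ) < d.factorial := by exact_mod_cast Nat.factorial_pos d
  have hL : (0 : ℝ) < log d ^ d := by positivity
  have h1 : ∀ j : ℕ, ((j : ℝ) + 1) ^ d / j.factorial ≤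
      (d.factorial * d / log d ^ d) * ((d : ℝ) ^ j / j.factorial) := by
    intro j
    have h2 := pow_div_factorial_le_exp (log d * ((j : ℝ) + 1)) (by positivity) d
    rw [div_le_iff₀ hf, mul_pow] at h2
    have h3 : exp (log d * ((j : ℝ) + 1)) = d * (d : ℝ) ^ j := by
      rw [exp_mul, exp_log hd0, rpow_add hd0, rpow_one, rpow_natCast]
      ring
    rw [h3] at h2
    have h4 : ((j : ℝ) + 1) ^ d ≤ (d.factorial * d / log d ^ d) * (d : ℝ) ^ j := by
      rw [div_mul_eq_mul_div, le_div_iff₀ hL]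
      linarith
    have h5 : (0 : ℝ) < j.factorial := by exact_mod_cast Nat.factorial_pos j
    rw [← mul_div_assoc]
    exact div_le_div_of_nonneg_right h4 h5.le
  have h6 : ∑ j ∈ range (d + 1), ((j : ℝ) + 1) ^ d / j.factorial ≤
      (d.factorial * d / log d ^ d) * exp d := by
    refine (sum_le_sum fun j _ => h1 j).trans ?_
    rw [← mul_sum]
    exact mul_le_mul_of_nonneg_left (sum_le_exp_of_nonneg hd0.le _) (by positivity)
  have h7 : ((d.factorial : ℝ) * d) ≤ (d : ℝ) ^ d := by exact_mod_cast factorial_mul_le hd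
  calc 2 ^ d * ∑ j ∈ range (d + 1), ((j : ℝ) + 1) ^ d / j.factorial
      ≤ 2 ^ d * ((d.factorial * d / log d ^ d) * exp d) :=
        mul_le_mul_of_nonneg_left h6 (by positivity)
    _ ≤ 2 ^ d * (((d : ℝ) ^ d / log d ^ d) * exp d) := by gcongr
    _ = (2 * exp 1 * d / log d) ^ d := by
        have h8 : exp (d : ℝ) = exp 1 ^ d := by rw [← exp_nat_mul, mul_one]
        rw [h8, ← div_pow, ← mul_pow, ← mul_pow]
        congr 1
        ring
    _ ≤ (6 * d / log d) ^ d := by
        refine pow_le_pow_left₀ (by positivity) ?_ _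
        refine div_le_div_of_nonneg_right ?_ (by linarith)
        refine mul_le_mul_of_nonneg_right ?_ hd0.le
        have h9 := exp_one_lt3
        linarith

end Pool.Agent.Helper6.SymW
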