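import Pool.Agent.Helper26.DR.St.DetCol
import Pool.Agent.Helper26.DR.St.Polar

set_option autoImplicit false

/-!
The colourings of helper26's proof of the formula of Houston, Goucher and Johnston, up to the names
of the colours, with the explicit sum over the classes (the first half is a copy of the orbit file
of helper26).
-/

namespace Pool.Agent.Helper6.SymW

open Equiv Finset Pool.Agent.Helper26.DR

def act {j : ℕ} (ρ : Perm (Fin j)) : Fin (j + 1) → Fin (j + 1) :=
  Fin.cases 0 (fun c => (ρ c).succ)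

theorem act_zero {j : ℕ} (ρ : Perm (Fin j)) : act ρ 0 = 0 := rfl

theorem act_succ {j : ℕ} (ρ : Perm (Fin j)) (c : Fin j) :
    act ρ c.succ = (ρ c).succ := rfl

theorem act_mul {j : ℕ} (ρ τ : Perm (Fin j)) (x : Fin (j + 1)) :
    act (ρ * τ) x = act ρ (act τ x) := by
  refine Fin.cases ?_ (fun c => ?_) x
  · rfl
  · rfl

theorem act_one {j : ℕ} (x : Fin (j + 1)) :
    act (1 : Perm (Fin j)) x = x := by
  refine Fin.cases ?_ (fun c => ?_) x
  · rfl
  · rfl

theorem act_inv {j : ℕ} (ρ : Perm (Fin j)) (x : Fin (j + 1)) :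
    act ρ⁻¹ (act ρ x) = x := by
  rw [← act_mul, inv_mul_cancel, act_one]

theorem act_inv' {j : ℕ} (ρ : Perm (Fin j)) (x : Fin (j + 1)) :
    act ρ (act ρ⁻¹ x) = x := by
  rw [← act_mul, mul_inv_cancel, act_one]

theorem act_inj {j : ℕ} (ρ : Perm (Fin j)) {x y : Fin (j + 1)} :
    act ρ x = act ρ y ↔ x = y := by
  constructor
  · intro h
    rw [← act_inv ρ x, h, act_inv]
  · rintro rfl
    rfl

theorem act_eq_zero {j : ℕ} (ρ : Perm (Fin j)) {x : Fin (j + 1)} :
    act ρ x = 0 ↔ x = 0 := by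
  rw [← act_zero ρ, act_inj, act_zero]

theorem act_cw {n j : ℕ} (ρ : Perm (Fin j)) (s : Fin n → Fin (j + 1)) (i l : Fin n) :
    cw (fun i => act ρ (s i)) i l = cw s i l := by
  unfold cw
  simp only [act_eq_zero, act_inj, ne_eq]

theorem act_cs {n j : ℕ} (ρ : Perm (Fin j)) (s : Fin n → Fin (j + 1)) :
    cs (fun i => act ρ (s i)) = cs s := by
  unfold cs
  simp only [act_eq_zero]

theorem act_ct {n j : ℕ} (ρ : Perm (Fin j)) (s : Fin n → Fin (j + 1))
    (A : Matrix (Fin n) (Fin n) ℂ) :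
    ct (fun i => act ρ (s i)) A = ct s A := by
  unfold ct
  simp only [act_cw, act_cs]

theorem act_mem {n j : ℕ} (ρ : Perm (Fin j)) {s : Fin n → Fin (j + 1)}
    (hs : s ∈ XC n j) : (fun i => act ρ (s i)) ∈ XC n j := by
  unfold XC at hs ⊢
  rw [mem_filter] at hs ⊢
  refine ⟨mem_univ _, fun c hc => ?_⟩
  obtain ⟨i, hi⟩ := hs.2 (act ρ⁻¹ c) (fun h => hc ((act_eq_zero ρ⁻¹).1 h))
  exact ⟨i, by show act ρ (s i) = c; rw [hi, act_inv']⟩

theorem act_free {n j : ℕ} {ρ τ : Perm (Fin j)} {s : Fin n → Fin (j + 1)}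
    (hs : s ∈ XC n j) (h : ∀ i, act ρ (s i) = act τ (s i)) : ρ = τ := by
  unfold XC at hs
  rw [mem_filter] at hs
  ext c
  obtain ⟨i, hi⟩ := hs.2 c.succ (Fin.succ_ne_zero c)
  have := h i
  rw [hi, act_succ, act_succ] at this
  exact congrArg Fin.val (Fin.succ_injective _ this)

/-- Equality up to the names of the colours. -/
def ren (n j : ℕ) : Setoid (XC n j) where
  r s t := ∃ ρ : Perm (Fin j), ∀ i, t.1 i = act ρ (s.1 i)
  iseqv :=
    { refl := fun s => ⟨1, fun i => (act_one _).symm⟩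
      symm := by
        rintro s t ⟨ρ, h⟩
        exact ⟨ρ⁻¹, fun i => by rw [h i, act_inv]⟩
      trans := by
        rintro s t u ⟨ρ, h⟩ ⟨τ, h'⟩
        exact ⟨τ * ρ, fun i => by rw [h' i, h i, act_mul]⟩ }

/-- the classes of colourings -/
def CQ (n j : ℕ) : Type := Quotient (ren n j)

noncomputable instance (n j : ℕ) : Fintype (CQ n j) := by
  classical
  exact (Fintype.ofFinite (Quotient (ren n j)))

/-- a representative of a class -/
noncomputable def rep {n j : ℕ} (q : CQ n j) : Fin n → Fin (j + 1) :=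
  (Quotient.out (s := ren n j) q).1

theorem rep_mem {n j : ℕ} (q : CQ n j) : rep q ∈ XC n j := (Quotient.out (s := ren n j) q).2

/-- the class of a colouring -/
def mkQ {n j : ℕ} (s : XC n j) : CQ n j := Quotient.mk (ren n j) s

theorem mkQ_rep {n j : ℕ} (q : CQ n j) : mkQ ⟨rep q, rep_mem q⟩ = q :=
  Quotient.out_eq (s := ren n j) q

theorem mkQ_eq {n j : ℕ} (s t : XC n j) :
    mkQ s = mkQ t ↔ ∃ ρ : Perm (Fin j), ∀ i, t.1 i = act ρ (s.1 i) :=
  ⟨fun h => Quotient.exact (s := ren n j) h, fun h => Quotient.sound (s := ren n j) h⟩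

theorem fib {n j : ℕ} (q : CQ n j) [DecidablePred fun s : XC n j => mkQ s = q] :
    ({s : XC n j | mkQ s = q} : Finset (XC n j)) =
      univ.image (fun ρ : Perm (Fin j) =>
        (⟨fun i => act ρ (rep q i), act_mem ρ (rep_mem q)⟩ : XC n j)) := by
  ext s
  rw [mem_filter, mem_image]
  constructor
  · rintro ⟨-, h⟩
    rw [← mkQ_rep q, eq_comm, mkQ_eq] at h
    obtain ⟨ρ, hρ⟩ := h
    exact ⟨ρ, mem_univ _, Subtype.ext (funext fun i => (hρ i).symm)⟩
  · rintro ⟨ρ, -, rfl⟩
    refine ⟨mem_univ _, ?_⟩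
    conv_rhs => rw [← mkQ_rep q]
    rw [mkQ_eq]
    exact ⟨ρ⁻¹, fun i => by
      show rep q i = act ρ⁻¹ (act ρ (rep q i))
      rw [act_inv]⟩

theorem fib_inj {n j : ℕ} (q : CQ n j) : Function.Injective
    (fun ρ : Perm (Fin j) =>
      (⟨fun i => act ρ (rep q i), act_mem ρ (rep_mem q)⟩ : XC n j)) := by
  intro ρ τ h
  exact act_free (rep_mem q) (fun i => congrFun (congrArg Subtype.val h) i)

theorem card_CQ (n j : ℕ) : Fintype.card (CQ n j) * j.factorial ≤ (j + 1) ^ n := by
  classical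
  have hcardfib : ∀ q : CQ n j,
      #({s : XC n j | mkQ s = q} : Finset (XC n j)) =
        j.factorial := by
    intro q
    rw [fib, card_image_of_injective _ (fib_inj q), card_univ, Fintype.card_perm, Fintype.card_fin]
  have h1 : #(univ : Finset (XC n j)) = Fintype.card (CQ n j) *
      j.factorial := by
    rw [card_eq_sum_card_fiberwise (f := mkQ)
      (t := univ) (fun _ _ => mem_coe.2 (mem_univ _)), sum_congr rfl (fun q _ => hcardfib q),
      sum_const, smul_eq_mul, card_univ]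
  rw [← h1, card_univ, Fintype.card_coe]
  calc #(XC n j) ≤ #(univ : Finset (Fin n → Fin (j + 1))) := card_le_card (subset_univ _)
    _ = (j + 1) ^ n := by rw [card_univ, Fintype.card_fun, Fintype.card_fin, Fintype.card_fin]

theorem sum_CQ (n j : ℕ) (A : Matrix (Fin n) (Fin n) ℂ) :
    ∑ s ∈ XC n j, ct s A = ∑ q : CQ n j, (j.factorial : ℂ) * ct (rep q) A := by
  classical
  have h1 : ∑ s ∈ XC n j, ct s A = ∑ s : XC n j, ct s.1 A := (sum_coe_sort (XC n j) _).symm
  rw [h1, ← sum_fiberwise_of_maps_to (s := (univ : Finset (XC n j)))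
    (t := (univ : Finset (CQ n j)))
    (g := mkQ) (fun _ _ => mem_univ _)]
  refine sum_congr rfl (fun q _ => ?_)
  rw [fib, sum_image (fun a _ b _ h => fib_inj q h)]
  rw [sum_congr rfl (fun ρ _ => act_ct ρ (rep q) A), sum_const, card_univ, Fintype.card_perm,
    Fintype.card_fin, nsmul_eq_mul]

/-- simultaneous permutations act on the colourings -/
theorem perm_mem {n j : ℕ} (π : Perm (Fin n)) {s : Fin n → Fin (j + 1)}
    (hs : s ∈ XC n j) : (fun i => s (π i)) ∈ XC n j := by
  unfold XC at hs ⊢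
  rw [mem_filter] at hs ⊢
  refine ⟨mem_univ _, fun c hc => ?_⟩
  obtain ⟨i, hi⟩ := hs.2 c hc
  exact ⟨π.symm i, by show s (π (π.symm i)) = c; rw [Equiv.apply_symm_apply]; exact hi⟩

/-- the action on the colourings -/
def permX {n j : ℕ} (π : Perm (Fin n)) : XC n j ≃ XC n j where
  toFun s := ⟨fun i => s.1 (π i), perm_mem π s.2⟩
  invFun s := ⟨fun i => s.1 (π.symm i), perm_mem π.symm s.2⟩
  left_inv s := by
    refine Subtype.ext (funext fun i => ?_)
    simp
  right_inv s := by
    refine Subtype.ext (funext fun i => ?_)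
    simp

/-- the action on the classes of colourings -/
def permQ {n j : ℕ} (π : Perm (Fin n)) : Perm (CQ n j) :=
  Quotient.congr (ra := ren n j) (rb := ren n j) (permX π) (by
    intro s t
    constructor
    · rintro ⟨ρ, h⟩
      exact ⟨ρ, fun i => h (π i)⟩
    · rintro ⟨ρ, h⟩
      refine ⟨ρ, fun i => ?_⟩
      have h1 := h (π.symm i)
      change t.1 (π (π.symm i)) = act ρ (s.1 (π (π.symm i))) at h1
      rw [Equiv.apply_symm_apply] at h1
      exact h1)

theorem rep_permQ {n j : ℕ} (π : Perm (Fin n)) (q : CQ n j) :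
    ∃ ρ : Perm (Fin j), ∀ i, rep (permQ π q) i = act ρ (rep q (π i)) := by
  have h1 : (permQ π q : CQ n j) = Quotient.mk (ren n j)
      (permX π (Quotient.out (s := ren n j) q)) := by
    have h2 := Quotient.out_eq (s := ren n j) q
    conv_lhs => rw [← h2]
    rfl
  have h3 : Quotient.mk (ren n j) (permX π (Quotient.out (s := ren n j) q)) =
      Quotient.mk (ren n j) (Quotient.out (s := ren n j) (permQ π q)) := by
    rw [Quotient.out_eq]
    exact h1.symm
  obtain ⟨ρ, hρ⟩ := Quotient.exact h3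
  exact ⟨ρ, hρ⟩

theorem cw_permQ {n j : ℕ} (π : Perm (Fin n)) (q : CQ n j) (i l : Fin n) :
    cw (rep (permQ π q)) i l = cw (rep q) (π i) (π l) := by
  obtain ⟨ρ, hρ⟩ := rep_permQ π q
  have h1 : rep (permQ π q) = fun i => act ρ ((fun a => rep q (π a)) i) := funext hρ
  rw [h1, act_cw]
  unfold cw
  simp only [EmbeddingLike.apply_eq_iff_eq, ne_eq]

theorem cs_permQ {n j : ℕ} (π : Perm (Fin n)) (q : CQ n j) :
    cs (rep (permQ π q)) = cs (rep q) := by
  obtain ⟨ρ, hρ⟩ := rep_permQ π q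
  have h1 : rep (permQ π q) = fun i => act ρ ((fun a => rep q (π a)) i) := funext hρ
  rw [h1, act_cs]
  unfold cs
  exact Equiv.prod_comp π (fun i => if rep q i = 0 then (1 : ℂ) else -1)

end Pool.Agent.Helper6.SymW
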