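import Pool.Agent.Helper6.SymW.Coeff

set_option autoImplicit false

namespace Pool.Agent.Helper6.SymW

open Equiv Finset MvPolynomial

/-- the permutation of the blocks -/
def pat {K m l : ℕ} (τ : Fin (K + 1) → Perm (Fin m)) : Perm ((Fin (K + 1) × Fin m) ⊕ Fin l) :=
  Perm.sumCongr ((Equiv.prodCongr (finRotate (K + 1)) (Equiv.refl (Fin m)) :
    Perm (Fin (K + 1) × Fin m)) * Equiv.prodCongrRight τ) 1

theorem pat_inl {K m l : ℕ} (τ : Fin (K + 1) → Perm (Fin m)) (s : Fin (K + 1)) (x : Fin m) :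
    (pat τ : Perm ((Fin (K + 1) × Fin m) ⊕ Fin l)) (Sum.inl (s, x)) =
      Sum.inl (finRotate (K + 1) s, τ s x) := rfl

theorem pat_inr {K m l : ℕ} (τ : Fin (K + 1) → Perm (Fin m)) (y : Fin l) :
    (pat τ : Perm ((Fin (K + 1) × Fin m) ⊕ Fin l)) (Sum.inr y) = Sum.inr y := rfl

/-- the sign of the shift of the blocks -/
def s0 (K m : ℕ) : ℤˣ := Perm.sign (Equiv.prodCongr (finRotate (K + 1)) (Equiv.refl (Fin m)) :
    Perm (Fin (K + 1) × Fin m))

theorem sign_pat {K m l : ℕ} (τ : Fin (K + 1) → Perm (Fin m)) :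
    Perm.sign (pat τ : Perm ((Fin (K + 1) × Fin m) ⊕ Fin l)) = s0 K m * ∏ s, Perm.sign (τ s) := by
  unfold pat s0
  rw [Perm.sign_sumCongr, map_mul, Perm.sign_prodCongrRight, map_one, mul_one]

/-- the matrix of one block of the pattern -/
def bl {K m l d : ℕ} (e : (Fin (K + 1) × Fin m) ⊕ Fin l ≃ Fin d) (L : Fin d × Fin d → ℂ)
    (s : Fin (K + 1)) : Matrix (Fin m) (Fin m) ℂ :=
  Matrix.of fun x' x => L (e (Sum.inl (finRotate (K + 1) s, x')), e (Sum.inl (s, x)))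

theorem prod_pat {K m l d : ℕ} (e : (Fin (K + 1) × Fin m) ⊕ Fin l ≃ Fin d)
    (L : Fin d × Fin d → ℂ) (τ : Fin (K + 1) → Perm (Fin m)) :
    ∏ i, L (e.permCongr (pat τ) i, i) =
      (∏ s, ∏ x, bl e L s (τ s x) x) * ∏ y : Fin l, L (e (Sum.inr y), e (Sum.inr y)) := by
  rw [← Equiv.prod_comp e, Fintype.prod_sum_type, Fintype.prod_prod_type]
  congr 1
  · refine prod_congr rfl fun s _ => prod_congr rfl fun x _ => ?_
    rw [Equiv.permCongr_apply, Equiv.symm_apply_apply, pat_inl]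
    rfl
  · refine prod_congr rfl fun y _ => ?_
    rw [Equiv.permCongr_apply, Equiv.symm_apply_apply, pat_inr]

theorem pattern_sum {K m l d : ℕ} (e : (Fin (K + 1) × Fin m) ⊕ Fin l ≃ Fin d)
    (L : Fin d × Fin d → ℂ) :
    ∑ τ : Fin (K + 1) → Perm (Fin m), ((Perm.sign (e.permCongr (pat τ)) : ℤ) : ℂ) *
      ∏ i, L (e.permCongr (pat τ) i, i) =
      ((s0 K m : ℤ) : ℂ) * ((∏ s, (bl e L s).det) * ∏ y : Fin l, L (e (Sum.inr y), e (Sum.inr y))) := by
  classical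
  have h1 : ∏ s, (bl e L s).det = ∑ τ : Fin (K + 1) → Perm (Fin m),
      ∏ s, (((Perm.sign (τ s) : ℤ) : ℂ) * ∏ x, bl e L s (τ s x) x) := by
    have h2 : ∀ s, (bl e L s).det = ∑ ρ : Perm (Fin m),
        (((Perm.sign ρ : ℤ) : ℂ) * ∏ x, bl e L s (ρ x) x) := fun s => by
      rw [Matrix.det_apply']
    rw [prod_congr rfl fun s _ => h2 s, Finset.prod_univ_sum, Fintype.piFinset_univ]
  rw [h1, sum_mul, mul_sum]
  refine sum_congr rfl fun τ _ => ?_
  rw [prod_pat, Perm.sign_permCongr, sign_pat, prod_mul_distrib]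
  push_cast
  ring

theorem pattern_sign {K m l d : ℕ} (e : (Fin (K + 1) × Fin m) ⊕ Fin l ≃ Fin d) :
    ∑ τ : Fin (K + 1) → Perm (Fin m), ((Perm.sign (e.permCongr (pat τ)) : ℤ) : ℂ) *
      ((Perm.sign (e.permCongr (pat τ)) : ℤ) : ℂ) ≠ 0 := by
  have h1 : ∀ τ : Fin (K + 1) → Perm (Fin m), ((Perm.sign (e.permCongr (pat τ)) : ℤ) : ℂ) *
      ((Perm.sign (e.permCongr (pat τ)) : ℤ) : ℂ) = 1 := by
    intro τ
    rcases Int.units_eq_one_or (Perm.sign (e.permCongr (pat τ))) with h | h <;> rw [h] <;> simp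
  rw [sum_congr rfl fun τ _ => h1 τ, sum_const, card_univ, nsmul_eq_mul, mul_one]
  exact_mod_cast Fintype.card_ne_zero

/-- some form of an approximate decomposition of the determinant has all blocks invertible -/
theorem exists_good {K m l d r : ℕ} (e : (Fin (K + 1) × Fin m) ⊕ Fin l ≃ Fin d)
    (G : ℕ → MvPolynomial (Fin d × Fin d) ℂ)
    (hG : ∀ σ : Perm (Fin d), Filter.Tendsto (fun k => coeff (pm σ) (G k)) Filter.atTop
      (nhds ((Perm.sign σ : ℤ) : ℂ)))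
    (P : (Fin r → Fin d × Fin d → ℂ) → Prop)
    (hr : ∀ k, ∃ f : Fin r → Fin d × Fin d → ℂ,
      G k = ∑ t, (∑ p, C (f t p) * X p) ^ d ∧ P f) :
    ∃ f, P f ∧ ∃ t, ∀ s, (bl e (f t) s).det ≠ 0 := by
  have h1 : Filter.Tendsto (fun k => ∑ τ : Fin (K + 1) → Perm (Fin m),
      ((Perm.sign (e.permCongr (pat τ)) : ℤ) : ℂ) * coeff (pm (e.permCongr (pat τ))) (G k))
      Filter.atTop (nhds (∑ τ : Fin (K + 1) → Perm (Fin m),
        ((Perm.sign (e.permCongr (pat τ)) : ℤ) : ℂ) *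
          ((Perm.sign (e.permCongr (pat τ)) : ℤ) : ℂ))) :=
    tendsto_finsetSum _ fun τ _ => (hG _).const_mul _
  have h2 := h1.eventually_ne (pattern_sign e)
  obtain ⟨k, hk⟩ := h2.exists
  obtain ⟨f, hf, hP⟩ := hr k
  refine ⟨f, hP, ?_⟩
  by_contra hcon
  push Not at hcon
  refine hk ?_
  have h3 : ∀ τ : Fin (K + 1) → Perm (Fin m), coeff (pm (e.permCongr (pat τ))) (G k) =
      ∑ t, (d.factorial : ℂ) * ∏ i, f t (e.permCongr (pat τ) i, i) := by
    intro τ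
    rw [hf, coeff_sum]
    exact sum_congr rfl fun t _ => coeff_pow _ _
  have h4 : ∑ τ : Fin (K + 1) → Perm (Fin m),
      ((Perm.sign (e.permCongr (pat τ)) : ℤ) : ℂ) * coeff (pm (e.permCongr (pat τ))) (G k) =
      ∑ t, (d.factorial : ℂ) * ∑ τ : Fin (K + 1) → Perm (Fin m),
        ((Perm.sign (e.permCongr (pat τ)) : ℤ) : ℂ) * ∏ i, f t (e.permCongr (pat τ) i, i) := by
    simp_rw [h3, mul_sum]
    rw [sum_comm]
    refine sum_congr rfl fun t _ => sum_congr rfl fun τ _ => ?_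
    ring
  rw [h4]
  refine sum_eq_zero fun t _ => ?_
  rw [pattern_sum]
  obtain ⟨s, hs⟩ := hcon t
  rw [Finset.prod_eq_zero (mem_univ s) hs]
  ring

end Pool.Agent.Helper6.SymW
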