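import Pool.Agent.Helper6.SymW.Pattern

set_option autoImplicit false

namespace Pool.Agent.Helper6.SymW

open Equiv Finset

/-- the permutations mapping the matrix to a multiple of itself -/
noncomputable def stab {d : ℕ} (L : Fin d × Fin d → ℂ) : Finset (Perm (Fin d)) :=
  open Classical in {π | ∃ c : ℂ, ∀ i j, L (π i, π j) = c * L (i, j)}

theorem mem_stab {d : ℕ} (L : Fin d × Fin d → ℂ) (π : Perm (Fin d)) :
    π ∈ stab L ↔ ∃ c : ℂ, ∀ i j, L (π i, π j) = c * L (i, j) := by
  unfold stab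
  simp

/-- two proportional rows -/
theorem det_zero_of_row_smul {m : ℕ} (M : Matrix (Fin m) (Fin m) ℂ) (x x' : Fin m) (c : ℂ)
    (hne : x' ≠ x) (h : ∀ y, M x' y = c * M x y) : M.det = 0 := by
  have h1 : M = M.updateRow x' (c • M x) := by
    ext a b
    rw [Matrix.updateRow_apply]
    split_ifs with hab
    · rw [hab, h b]
      rfl
    · rfl
  rw [h1, Matrix.det_updateRow_smul, Matrix.det_zero_of_row_eq hne, mul_zero]
  rw [Matrix.updateRow_self, Matrix.updateRow_ne (Ne.symm hne)]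

/-- the colour of a point: its block -/
def col {K m l : ℕ} : (Fin (K + 1) × Fin m) ⊕ Fin l → Option (Fin (K + 1)) :=
  Sum.elim (fun p => some p.1) (fun _ => none)

/-- a permutation preserving the blocks, fixing the points of the first block and mapping the
matrix to a multiple of itself fixes all points of the blocks -/
theorem fix_blocks {K m l d : ℕ} (e : (Fin (K + 1) × Fin m) ⊕ Fin l ≃ Fin d)
    (L : Fin d × Fin d → ℂ) (hdet : ∀ s, (bl e L s).det ≠ 0) (g : Perm (Fin d)) (c : ℂ)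
    (hc : ∀ i j, L (g i, g j) = c * L (i, j))
    (hcol : ∀ z, col (e.symm (g (e z))) = col z)
    (h0 : ∀ x, g (e (Sum.inl (0, x))) = e (Sum.inl (0, x))) :
    ∀ (s : ℕ) (hs : s < K + 1) (x : Fin m),
      g (e (Sum.inl (⟨s, hs⟩, x))) = e (Sum.inl (⟨s, hs⟩, x)) := by
  intro s
  induction s with
  | zero => exact fun hs x => h0 x
  | succ s ih =>
    intro hs x
    have hs' : s < K + 1 := by omega
    have hrot : finRotate (K + 1) ⟨s, hs'⟩ = ⟨s + 1, hs⟩ := finRotate_of_lt (by omega)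
    have h1 := hcol (Sum.inl (⟨s + 1, hs⟩, x))
    obtain ⟨x', hx'⟩ : ∃ x', e.symm (g (e (Sum.inl (⟨s + 1, hs⟩, x)))) =
        Sum.inl (⟨s + 1, hs⟩, x') := by
      rcases h2 : e.symm (g (e (Sum.inl (⟨s + 1, hs⟩, x)))) with ⟨a, x'⟩ | y
      · rw [h2] at h1
        simp only [col, Sum.elim_inl, Option.some.injEq] at h1
        exact ⟨x', by rw [h1]⟩
      · rw [h2] at h1
        simp [col] at h1
    have hx : g (e (Sum.inl (⟨s + 1, hs⟩, x))) = e (Sum.inl (⟨s + 1, hs⟩, x')) := by
      rw [← hx', Equiv.apply_symm_apply]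
    rw [hx]
    by_contra hne
    have hne' : x' ≠ x := fun h => hne (by rw [h])
    refine hdet ⟨s, hs'⟩ (det_zero_of_row_smul _ x x' c hne' fun y => ?_)
    show L (e (Sum.inl (finRotate (K + 1) ⟨s, hs'⟩, x')), e (Sum.inl (⟨s, hs'⟩, y))) =
      c * L (e (Sum.inl (finRotate (K + 1) ⟨s, hs'⟩, x)), e (Sum.inl (⟨s, hs'⟩, y)))
    rw [hrot, ← hc, hx, ih hs' y]

/-- the number of permutations mapping the matrix to a multiple of itself -/
theorem card_stab {K m l d : ℕ} (hm : 1 ≤ m) (e : (Fin (K + 1) × Fin m) ⊕ Fin l ≃ Fin d)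
    (L : Fin d × Fin d → ℂ) (hdet : ∀ s, (bl e L s).det ≠ 0) :
    #(stab L) ≤ d ^ m * d ^ l * (K + 2) ^ d := by
  classical
  have hL : ∃ i j, L (i, j) ≠ 0 := by
    by_contra hcon
    push Not at hcon
    refine hdet 0 ?_
    have h1 : bl e L 0 = 0 := by
      ext a b
      exact hcon _ _
    have : Nonempty (Fin m) := ⟨⟨0, hm⟩⟩
    rw [h1, Matrix.det_zero]
  let φ : Perm (Fin d) → ((Fin m → Fin d) × (Fin l → Fin d)) × (Fin d → Option (Fin (K + 1))) :=
    fun π => ((fun x => π (e (Sum.inl (0, x))), fun y => π (e (Sum.inr y))),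
      fun z => col (e.symm (π.symm z)))
  have hinj : Set.InjOn φ (stab L) := by
    intro π hπ π' hπ' h
    rw [Finset.mem_coe, mem_stab] at hπ hπ'
    obtain ⟨c, hc⟩ := hπ
    obtain ⟨c', hc'⟩ := hπ'
    simp only [φ, Prod.mk.injEq] at h
    obtain ⟨⟨ha, hb⟩, hz⟩ := h
    have hc0 : c' ≠ 0 := by
      rintro rfl
      obtain ⟨i, j, hij⟩ := hL
      refine hij ?_
      have h1 := hc' (π'.symm i) (π'.symm j)
      rw [zero_mul, Equiv.apply_symm_apply, Equiv.apply_symm_apply] at h1
      exact h1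
    let g : Perm (Fin d) := π.trans π'.symm
    have hg : ∀ i, g i = π'.symm (π i) := fun _ => rfl
    have hgc : ∀ i j, L (g i, g j) = (c / c') * L (i, j) := by
      intro i j
      have h1 := hc' (g i) (g j)
      rw [hg, hg, Equiv.apply_symm_apply, Equiv.apply_symm_apply, hc i j] at h1
      rw [hg, hg, div_mul_eq_mul_div, h1, mul_div_cancel_left₀ _ hc0]
    have hcol : ∀ z, col (e.symm (g (e z))) = col z := by
      intro z
      have h1 := congrFun hz (π (e z))
      rw [Equiv.symm_apply_apply, Equiv.symm_apply_apply] at h1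
      rw [hg]
      exact h1.symm
    have h0 : ∀ x, g (e (Sum.inl (0, x))) = e (Sum.inl (0, x)) := by
      intro x
      rw [hg, congrFun ha x, Equiv.symm_apply_apply]
    have h2 := fix_blocks e L hdet g _ hgc hcol h0
    have h3 : ∀ z, g (e z) = e z := by
      rintro (⟨s, x⟩ | y)
      · exact h2 s.1 s.2 x
      · rw [hg, congrFun hb y, Equiv.symm_apply_apply]
    ext i
    have h4 := h3 (e.symm i)
    rw [Equiv.apply_symm_apply, hg, Equiv.symm_apply_eq] at h4
    rw [h4]
  have h5 := Finset.card_le_card_of_injOn (t := (univ : Finset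
    (((Fin m → Fin d) × (Fin l → Fin d)) × (Fin d → Option (Fin (K + 1)))))) φ
    (fun _ _ => Finset.mem_coe.2 (mem_univ _)) hinj
  refine h5.trans (le_of_eq ?_)
  rw [card_univ]
  simp [Fintype.card_prod]

/-- orbit counting -/
theorem card_group_le_stab {K m l d r : ℕ} (hm : 1 ≤ m) (e : (Fin (K + 1) × Fin m) ⊕ Fin l ≃ Fin d)
    (H : Subgroup (Perm (Fin d))) (f : Fin r → Fin d × Fin d → ℂ)
    (hsym : ∀ π ∈ H, ∀ t, ∃ u, ∃ c : ℂ, ∀ i j, f t (π i, π j) = c * f u (i, j))
    (t : Fin r) (hdet : ∀ s, (bl e (f t) s).det ≠ 0) :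
    Nat.card H ≤ #(stab (f t)) * r := by
  classical
  have hL : ∃ i j, f t (i, j) ≠ 0 := by
    by_contra hcon
    push Not at hcon
    refine hdet 0 ?_
    have h1 : bl e (f t) 0 = 0 := by
      ext a b
      exact hcon _ _
    have : Nonempty (Fin m) := ⟨⟨0, hm⟩⟩
    rw [h1, Matrix.det_zero]
  choose! u hu using hsym
  have h1 := Finset.card_le_mul_card_image_of_maps_to
    (s := (univ : Finset (Perm (Fin d))).filter (· ∈ H)) (t := (univ : Finset (Fin r)))
    (f := fun π => u π t) (fun _ _ => mem_univ _) (#(stab (f t))) ?_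
  · rw [card_univ, Fintype.card_fin] at h1
    refine le_trans (le_of_eq ?_) h1
    rw [Nat.card_eq_fintype_card, Fintype.card_subtype]
  · intro b _
    rcases Finset.eq_empty_or_nonempty
      (((univ : Finset (Perm (Fin d))).filter (· ∈ H)).filter fun π => u π t = b) with h2 | ⟨π0, hπ0⟩
    · rw [h2]
      exact Nat.zero_le _
    · refine Finset.card_le_card_of_injOn (fun π => π * π0⁻¹) ?_ ?_
      · intro π hπ
        rw [Finset.mem_coe, mem_filter, mem_filter] at hπ
        rw [mem_filter, mem_filter] at hπ0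
        obtain ⟨⟨-, hπH⟩, hπb⟩ := hπ
        obtain ⟨⟨-, hπ0H⟩, hπ0b⟩ := hπ0
        obtain ⟨c, hc⟩ := hu π hπH t
        obtain ⟨c0, hc0⟩ := hu π0 hπ0H t
        rw [hπb] at hc
        rw [hπ0b] at hc0
        have hne : c0 ≠ 0 := by
          rintro rfl
          obtain ⟨i, j, hij⟩ := hL
          refine hij ?_
          have h1 := hc0 (π0.symm i) (π0.symm j)
          rw [zero_mul, Equiv.apply_symm_apply, Equiv.apply_symm_apply] at h1
          exact h1
        rw [Finset.mem_coe, mem_stab]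
        refine ⟨c / c0, fun i j => ?_⟩
        have h3 := hc (π0.symm i) (π0.symm j)
        have h4 := hc0 (π0.symm i) (π0.symm j)
        rw [Equiv.apply_symm_apply, Equiv.apply_symm_apply] at h4
        change f t (π (π0.symm i), π (π0.symm j)) = _
        rw [h3, h4, ← mul_assoc, div_mul_cancel₀ _ hne]
      · intro π _ π' _ h
        exact mul_right_cancel h

theorem card_group_le {K m l d r : ℕ} (hm : 1 ≤ m) (e : (Fin (K + 1) × Fin m) ⊕ Fin l ≃ Fin d)
    (H : Subgroup (Perm (Fin d))) (f : Fin r → Fin d × Fin d → ℂ)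
    (hsym : ∀ π ∈ H, ∀ t, ∃ u, ∃ c : ℂ, ∀ i j, f t (π i, π j) = c * f u (i, j))
    (t : Fin r) (hdet : ∀ s, (bl e (f t) s).det ≠ 0) :
    Nat.card H ≤ (d ^ m * d ^ l * (K + 2) ^ d) * r :=
  (card_group_le_stab hm e H f hsym t hdet).trans
    (Nat.mul_le_mul_right _ (card_stab hm e (f t) hdet))

end Pool.Agent.Helper6.SymW
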