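import Pool.Agent.Helper6.SymW.Stab

set_option autoImplicit false

namespace Pool.Agent.Helper6.SymW

open Equiv Finset

/-- a product of natural numbers with given mean -/
theorem prod_le_of_sum_le {m c : ℕ} (hc : 1 ≤ c) (x : Fin m → ℕ) (h : ∑ i, x i ≤ c * m) :
    ∏ i, x i ≤ c ^ m := by
  have hc0 : (0 : ℝ) < c := by exact_mod_cast hc
  have h1 : ∀ i, ((x i : ℕ) : ℝ) ≤ c * Real.exp ((x i : ℝ) / c - 1) := by
    intro i
    have h2 := Real.add_one_le_exp ((x i : ℝ) / c - 1)
    rw [sub_add_cancel, div_le_iff₀ hc0] at h2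
    linarith
  have h3 : ((∏ i, x i : ℕ) : ℝ) ≤ (c : ℝ) ^ m := by
    push_cast
    calc ∏ i, ((x i : ℕ) : ℝ) ≤ ∏ i, (c * Real.exp ((x i : ℝ) / c - 1)) :=
          prod_le_prod (fun i _ => Nat.cast_nonneg _) (fun i _ => h1 i)
      _ = (c : ℝ) ^ m * Real.exp (∑ i, ((x i : ℝ) / c - 1)) := by
          rw [prod_mul_distrib, Real.exp_sum]
          simp
      _ ≤ (c : ℝ) ^ m * 1 := by
          refine mul_le_mul_of_nonneg_left ?_ (by positivity)
          rw [Real.exp_le_one_iff, sum_sub_distrib, ← sum_div]
          have h4 : ((∑ i, (x i : ℝ))) ≤ c * m := by exact_mod_cast h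
          have h5 : (∑ i, (x i : ℝ)) / c ≤ m := by
            rw [div_le_iff₀ hc0]
            linarith
          simp only [sum_const, card_univ, Fintype.card_fin, nsmul_eq_mul, mul_one]
          linarith
      _ = (c : ℝ) ^ m := mul_one _
  exact_mod_cast h3

/-- the level of a point: its block, and `0` for the points outside of the blocks -/
def lev {K m l d : ℕ} (e : (Fin (K + 1) × Fin m) ⊕ Fin l ≃ Fin d) (v : Fin d) : ℕ :=
  Sum.elim (fun p => (p.1 : ℕ)) (fun _ => 0) (e.symm v)

theorem lev_inl {K m l d : ℕ} (e : (Fin (K + 1) × Fin m) ⊕ Fin l ≃ Fin d) (a : Fin (K + 1))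
    (x : Fin m) : lev e (e (Sum.inl (a, x))) = a := by
  simp [lev]

theorem lev_inr {K m l d : ℕ} (e : (Fin (K + 1) × Fin m) ⊕ Fin l ≃ Fin d) (y : Fin l) :
    lev e (e (Sum.inr y)) = 0 := by
  simp [lev]

theorem lev_le {K m l d : ℕ} (e : (Fin (K + 1) × Fin m) ⊕ Fin l ≃ Fin d) (v : Fin d) :
    lev e v ≤ K := by
  unfold lev
  rcases e.symm v with p | y
  · have := p.1.2
    simp only [Sum.elim_inl]
    omega
  · simp

/-- the number of points above a level -/
theorem card_lev {K m l d : ℕ} (e : (Fin (K + 1) × Fin m) ⊕ Fin l ≃ Fin d) (s : ℕ) :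
    #{v : Fin d | s < lev e v} = (K - s) * m := by
  classical
  have h1 : ({v : Fin d | s < lev e v} : Finset (Fin d)) =
      (((Finset.univ : Finset (Fin (K + 1))).filter (fun a : Fin (K + 1) => s < (a : ℕ))) ×ˢ
        (univ : Finset (Fin m))).map
        ((Function.Embedding.inl).trans e.toEmbedding) := by
    ext v
    simp only [mem_filter, mem_univ, true_and, mem_map, mem_product, and_true,
      Function.Embedding.trans_apply, Function.Embedding.inl_apply, Equiv.coe_toEmbedding]
    constructor
    · intro h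
      rcases h2 : e.symm v with p | y
      · refine ⟨p, ?_, ?_⟩
        · unfold lev at h
          rw [h2] at h
          exact h
        · rw [← h2, Equiv.apply_symm_apply]
      · unfold lev at h
        rw [h2] at h
        simp at h
    · rintro ⟨p, hp, rfl⟩
      obtain ⟨a, x⟩ := p
      rw [lev_inl]
      exact hp
  rw [h1, card_map, card_product, card_univ, Fintype.card_fin]
  congr 1
  have h3 : ((Finset.univ : Finset (Fin (K + 1))).filter
      (fun a : Fin (K + 1) => s < (a : ℕ))).card =
      (((Finset.range (K + 1)).filter (fun a => s < a))).card := by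
    rw [← Finset.card_map Fin.valEmbedding]
    congr 1
    ext a
    simp only [mem_map, mem_filter, mem_univ, true_and, Fin.valEmbedding_apply, mem_range]
    constructor
    · rintro ⟨b, hb, rfl⟩
      exact ⟨b.2, hb⟩
    · rintro ⟨h, h'⟩
      exact ⟨⟨a, h⟩, h', rfl⟩
  rw [h3]
  have h4 : (Finset.range (K + 1)).filter (fun a => s < a) = Finset.Ioc s K := by
    ext a
    simp only [mem_filter, mem_range, mem_Ioc]
    omega
  rw [h4, Nat.card_Ioc]

/-- the restriction of a permutation to the points up to a level -/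
def msk {K m l d : ℕ} (e : (Fin (K + 1) × Fin m) ⊕ Fin l ≃ Fin d) (s : ℕ) (π : Perm (Fin d)) :
    Fin d → Option (Fin d) := fun v => if lev e v ≤ s then some (π v) else none

theorem msk_zero_card {K m l d : ℕ} (e : (Fin (K + 1) × Fin m) ⊕ Fin l ≃ Fin d)
    (S : Finset (Perm (Fin d))) [DecidableEq (Fin d → Option (Fin d))] :
    #(S.image (msk e 0)) ≤ d ^ m * d ^ l := by
  classical
  let ψ : (Fin m → Fin d) × (Fin l → Fin d) → Fin d → Option (Fin d) := fun p v =>
    Sum.elim (fun q => if (q.1 : ℕ) = 0 then some (p.1 q.2) else none)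
      (fun y => some (p.2 y)) (e.symm v)
  have h1 : S.image (msk e 0) ⊆ univ.image ψ := by
    intro a ha
    rw [mem_image] at ha ⊢
    obtain ⟨π, -, rfl⟩ := ha
    refine ⟨(fun x => π (e (Sum.inl (0, x))), fun y => π (e (Sum.inr y))), mem_univ _, ?_⟩
    funext v
    obtain ⟨z, rfl⟩ := e.surjective v
    rcases z with ⟨a, x⟩ | y
    · simp only [ψ, Equiv.symm_apply_apply, Sum.elim_inl, msk, lev_inl]
      by_cases ha : (a : ℕ) = 0
      · have ha' : a = 0 := Fin.ext ha
        subst ha'
        simp
      · rw [if_neg ha, if_neg (by omega)]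
    · simp only [ψ, Equiv.symm_apply_apply, Sum.elim_inr, msk, lev_inr]
      simp
  refine (card_le_card h1).trans (card_image_le.trans (le_of_eq ?_))
  rw [card_univ]
  simp [Fintype.card_prod]

theorem msk_top_inj {K m l d : ℕ} (e : (Fin (K + 1) × Fin m) ⊕ Fin l ≃ Fin d) :
    Function.Injective (msk e K) := by
  intro π π' h
  ext v
  have h1 := congrFun h v
  simp only [msk, lev_le, if_true, Option.some.injEq] at h1
  rw [h1]

/-- the possible images of a point of the block `s + 1` under a permutation that fixes the points up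
to the level `s` -/
noncomputable def RR {K m l d : ℕ} (e : (Fin (K + 1) × Fin m) ⊕ Fin l ≃ Fin d)
    (L : Fin d × Fin d → ℂ) (a b : Fin (K + 1)) (x : Fin m) : Finset (Fin d) :=
  open Classical in {w | (a : ℕ) < lev e w ∧ ∃ c : ℂ, c ≠ 0 ∧
    ∀ y, L (w, e (Sum.inl (a, y))) = c * L (e (Sum.inl (b, x)), e (Sum.inl (a, y)))}

theorem RR_disj {K m l d : ℕ} (e : (Fin (K + 1) × Fin m) ⊕ Fin l ≃ Fin d)
    (L : Fin d × Fin d → ℂ) (a b : Fin (K + 1)) (hb : finRotate (K + 1) a = b)
    (hdet : (bl e L a).det ≠ 0) :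
    ∑ x, #(RR e L a b x) ≤ (K - a) * m := by
  classical
  rw [← card_lev e a, ← card_biUnion]
  · refine card_le_card ?_
    intro w hw
    rw [mem_biUnion] at hw
    obtain ⟨x, -, hx⟩ := hw
    unfold RR at hx
    rw [mem_filter] at hx ⊢
    exact ⟨mem_univ _, hx.2.1⟩
  · intro x _ x' _ hne
    show Disjoint (RR e L a b x) (RR e L a b x')
    rw [disjoint_left]
    intro w hw hw'
    unfold RR at hw hw'
    rw [mem_filter] at hw hw'
    obtain ⟨-, -, c, hc0, hc⟩ := hw
    obtain ⟨-, -, c', hc0', hc'⟩ := hw'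
    refine hdet (det_zero_of_row_smul _ x' x (c' / c) hne fun y => ?_)
    show L (e (Sum.inl (finRotate (K + 1) a, x)), e (Sum.inl (a, y))) =
      c' / c * L (e (Sum.inl (finRotate (K + 1) a, x')), e (Sum.inl (a, y)))
    rw [hb]
    have h1 := (hc y).symm.trans (hc' y)
    rw [div_mul_eq_mul_div, ← h1, mul_div_cancel_left₀ _ hc0]

theorem msk_step {K m l d : ℕ} (hm : 1 ≤ m) (e : (Fin (K + 1) × Fin m) ⊕ Fin l ≃ Fin d)
    (L : Fin d × Fin d → ℂ) (hdet : ∀ s, (bl e L s).det ≠ 0)
    [DecidableEq (Fin d → Option (Fin d))] (s : ℕ) (hs : s < K) :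
    #((stab L).image (msk e (s + 1))) ≤ (K - s) ^ m * #((stab L).image (msk e s)) := by
  classical
  have hL : ∃ i j, L (i, j) ≠ 0 := by
    by_contra hcon
    push Not at hcon
    refine hdet 0 ?_
    have h1 : bl e L 0 = 0 := by
      ext a b
      exact hcon _ _
    have : Nonempty (Fin m) := ⟨⟨0, hm⟩⟩
    rw [h1, Matrix.det_zero]
  let a : Fin (K + 1) := ⟨s, by omega⟩
  let b : Fin (K + 1) := ⟨s + 1, by omega⟩
  have hab : finRotate (K + 1) a = b := finRotate_of_lt hs
  have hrem : ∀ π : Perm (Fin d), (fun v => if lev e v ≤ s then msk e (s + 1) π v else none) =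
      msk e s π := by
    intro π
    funext v
    simp only [msk]
    by_cases h : lev e v ≤ s
    · rw [if_pos h, if_pos h, if_pos (by omega)]
    · rw [if_neg h, if_neg h]
  refine Finset.card_le_mul_card_image_of_maps_to
    (f := fun (ρ : Fin d → Option (Fin d)) v => if lev e v ≤ s then ρ v else none) ?_ _ ?_
  · intro ρ hρ
    rw [mem_image] at hρ
    obtain ⟨π, hπ, rfl⟩ := hρ
    rw [hrem]
    exact mem_image_of_mem _ hπ
  · intro β hβ
    rw [mem_image] at hβ
    obtain ⟨π0, hπ0, rfl⟩ := hβ
    have hprod : ∏ x, #(RR e L a b x) ≤ (K - s) ^ m :=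
      prod_le_of_sum_le (by omega) _ (RR_disj e L a b hab (hdet a))
    refine le_trans ?_ hprod
    rw [← Fintype.card_piFinset]
    refine Finset.card_le_card_of_injOn
      (fun ρ x => π0.symm ((ρ (e (Sum.inl (b, x)))).getD (π0 (e (Sum.inl (b, x)))))) ?_ ?_
    · intro ρ hρ
      rw [Finset.mem_coe, mem_filter, mem_image] at hρ
      obtain ⟨⟨π, hπ, rfl⟩, hβ⟩ := hρ
      rw [hrem] at hβ
      rw [Finset.mem_coe, Fintype.mem_piFinset]
      intro x
      have h1 : msk e (s + 1) π (e (Sum.inl (b, x))) = some (π (e (Sum.inl (b, x)))) := by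
        simp only [msk, lev_inl]
        rw [if_pos]
        exact le_refl _
      show π0.symm ((msk e (s + 1) π (e (Sum.inl (b, x)))).getD (π0 (e (Sum.inl (b, x))))) ∈ _
      rw [h1, Option.getD_some]
      -- the quotient fixes the points up to the level `s`
      have hfix : ∀ v, lev e v ≤ s → π0.symm (π v) = v := by
        intro v hv
        have h2 := congrFun hβ v
        simp only [msk, if_pos hv, Option.some.injEq] at h2
        rw [h2, Equiv.symm_apply_apply]
      rw [mem_stab] at hπ hπ0
      obtain ⟨c, hc⟩ := hπ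
      obtain ⟨c', hc'⟩ := hπ0
      have hc0' : c' ≠ 0 := by
        rintro rfl
        obtain ⟨i, j, hij⟩ := hL
        refine hij ?_
        have h1 := hc' (π0.symm i) (π0.symm j)
        rw [zero_mul, Equiv.apply_symm_apply, Equiv.apply_symm_apply] at h1
        exact h1
      have hc0 : c ≠ 0 := by
        rintro rfl
        obtain ⟨i, j, hij⟩ := hL
        refine hij ?_
        have h1 := hc (π.symm i) (π.symm j)
        rw [zero_mul, Equiv.apply_symm_apply, Equiv.apply_symm_apply] at h1
        exact h1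
      have hgc : ∀ i j, L (π0.symm (π i), π0.symm (π j)) = (c / c') * L (i, j) := by
        intro i j
        have h1 := hc' (π0.symm (π i)) (π0.symm (π j))
        rw [Equiv.apply_symm_apply, Equiv.apply_symm_apply, hc i j] at h1
        rw [div_mul_eq_mul_div, h1, mul_div_cancel_left₀ _ hc0']
      unfold RR
      rw [mem_filter]
      refine ⟨mem_univ _, ?_, c / c', div_ne_zero hc0 hc0', fun y => ?_⟩
      · by_contra hcon
        have h2 : lev e (π0.symm (π (e (Sum.inl (b, x))))) ≤ s := not_lt.1 hcon
        have h3 := hfix _ h2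
        have h4 : π0.symm (π (e (Sum.inl (b, x)))) = e (Sum.inl (b, x)) :=
          π.injective (π0.symm.injective h3)
        rw [h4, lev_inl] at h2
        have h5 : (b : ℕ) = s + 1 := rfl
        omega
      · have h2 := hfix (e (Sum.inl (a, y))) (by rw [lev_inl])
        conv_lhs => rw [← h2]
        exact hgc _ _
    · intro ρ hρ ρ' hρ' h
      rw [Finset.mem_coe, mem_filter, mem_image] at hρ hρ'
      obtain ⟨⟨π, hπ, rfl⟩, hβ⟩ := hρ
      obtain ⟨⟨π', hπ', rfl⟩, hβ'⟩ := hρ'
      rw [hrem] at hβ hβ'
      have hb1 : ∀ (π : Perm (Fin d)) x,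
          msk e (s + 1) π (e (Sum.inl (b, x))) = some (π (e (Sum.inl (b, x)))) := by
        intro π x
        simp only [msk, lev_inl]
        rw [if_pos]
        exact le_refl _
      funext v
      rcases Nat.lt_or_ge s (lev e v) with h1 | h1
      · rcases Nat.lt_or_ge (s + 1) (lev e v) with h2 | h2
        · simp only [msk, if_neg (not_le.2 h2)]
        · obtain ⟨z, rfl⟩ := e.surjective v
          rcases z with ⟨a', x⟩ | y
          · rw [lev_inl] at h1 h2
            have h3 : a' = b := Fin.ext (by show (a' : ℕ) = s + 1; omega)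
            subst h3
            have h4 := congrFun h x
            simp only [hb1, Option.getD_some, EmbeddingLike.apply_eq_iff_eq] at h4
            rw [hb1, hb1, h4]
          · rw [lev_inr] at h1
            omega
      · have h2 := congrFun (hβ.trans hβ'.symm) v
        simp only [msk, if_pos h1] at h2
        simp only [msk, if_pos (show lev e v ≤ s + 1 by omega)]
        exact h2

/-- the refined bound for the number of permutations mapping the matrix to a multiple of itself -/
theorem card_stab' {K m l d : ℕ} (hm : 1 ≤ m) (e : (Fin (K + 1) × Fin m) ⊕ Fin l ≃ Fin d)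
    (L : Fin d × Fin d → ℂ) (hdet : ∀ s, (bl e L s).det ≠ 0) :
    #(stab L) ≤ d ^ m * d ^ l * (K.factorial) ^ m := by
  classical
  have h1 : ∀ s, s ≤ K → #((stab L).image (msk e s)) ≤
      d ^ m * d ^ l * (K.descFactorial s) ^ m := by
    intro s
    induction s with
    | zero =>
      intro _
      rw [Nat.descFactorial_zero, one_pow, mul_one]
      exact msk_zero_card e _
    | succ s ih =>
      intro hs
      refine (msk_step hm e L hdet s (by omega)).trans ?_
      refine (Nat.mul_le_mul_left _ (ih (by omega))).trans (le_of_eq ?_)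
      rw [Nat.descFactorial_succ, mul_pow]
      ring
  have h2 := h1 K le_rfl
  rw [Nat.descFactorial_self, card_image_of_injective _ (msk_top_inj e)] at h2
  exact h2

end Pool.Agent.Helper6.SymW
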